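import Pool.Agent.Helper83.OP.Defs

/-!
# UP: 1-planar-critical graphs whose threads have comparable lengths (MP_0dbcb7_co) — definitions

Everything is formulated in the graph `G` itself (unit edges): balls, volumes, cycles; a *thread* is a path whose
inner vertices have degree two and whose ends have degree at least three.
-/

open Set
open Pool.Agent.Helper83.OP

namespace Pool.Agent.Helper95.UP

/-- closed ball of radius `ρ` -/
def ball {V : Type} (G : SimpleGraph V) (x : V) (ρ : ℕ) : Set V :=
  {y | ∃ p : G.Walk x y, p.length ≤ ρ}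

/-- the volume: sum of the degrees of the vertices of `B` of degree at least three -/
noncomputable def vol {V : Type} (G : SimpleGraph V) (B : Set V) : ℕ :=
  {e : V × V | e.1 ∈ B ∧ 3 ≤ deg G e.1 ∧ G.Adj e.1 e.2}.ncard

/-- a partition of the edges into segments (paths with inner vertices of degree two), indexed by
`Q`; several segments may have the same ends -/
structure Seg {V : Type} (G : SimpleGraph V) (Q : Type) where
  a : Q → V
  b : Q → V
  T : ∀ q, G.Walk (a q) (b q)
  ne : ∀ q, a q ≠ b q
  path : ∀ q, (T q).IsPath
  cover : ∀ f ∈ G.edgeSet, ∃ q, f ∈ (T q).edges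
  disj : ∀ q q' f, f ∈ (T q).edges → f ∈ (T q').edges → q = q'
  inner : ∀ q, ∀ x ∈ (T q).support, x ≠ a q → x ≠ b q → deg G x = 2

/-- number of edges of the segment `q` -/
def Seg.len {V : Type} {G : SimpleGraph V} {Q : Type} (Th : Seg G Q) (q : Q) : ℕ :=
  (Th.T q).length

/-- all paths between vertices of degree at least three with inner vertices of degree two have
between `r` and `W` edges -/
def ThrLen {V : Type} (G : SimpleGraph V) (r W : ℕ) : Prop :=
  ∀ u v (p : G.Walk u v), p.IsPath → u ≠ v → 3 ≤ deg G u → 3 ≤ deg G v →
    (∀ x ∈ p.support, x ≠ u → x ≠ v → deg G x = 2) → r ≤ p.length ∧ p.length ≤ W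

end Pool.Agent.Helper95.UP
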