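import Pool.Agent.Helper95.UP.Defs

/-!
# UP-B: a path contains few vertices of degree at least three

`br_count`: `G` such that every path between different vertices of degree `≥ 3` with inner vertices of degree two has at least `r`
edges.  For every path `p` of `G`: `r * #(vertices of degree ≥ 3 on p) ≤ p.length + r`.
Proof: induction on the length of `p` (for all ends).  `nil`: at most one.  If the first vertex has degree `< 3`: tail.
If the first vertex `u` has degree `≥ 3` and no other vertex of `p` has degree `≥ 3`: one.  Otherwise let `w` be the first vertex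
after `u` of degree `≥ 3` (e.g. `n = Nat.find` of `0 < n ∧ 3 ≤ deg (p.getVert n)`, `p = (p.take n).append (p.drop n)`); the part `p₁` of `p`
from `u` to `w` is a path whose inner vertices have degree `≤ 2` and, being inner vertices of a path, at least two neighbours;
so `r ≤ p₁.length`.  The rest `p₂` starts at `w`; induction: `r * #p₂ ≤ p₂.length + r`; `#p = 1 + #p₂`.

`deg_sum`: the consequence for the sum of the degrees when all degrees are at most `C r` (`1 ≤ r`): vertices of degree `≥ 3` contribute
at most `C r #p ≤ C (p.length + r)`, the others at most `2 (p.length + 1)`.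

`cycle_len`: rotate the cycle so that it starts at `u` (`Walk.rotate`); without its first edge it is a path (`IsCycle.isPath_tail`)
which contains `u` and `v`; `br_count` gives `2 r ≤ length + r`.
-/

open Set
open Pool.Agent.Helper83.OP

namespace Pool.Agent.Helper95.UP

/-- an inner vertex of a path has degree at least two -/
private theorem two_le_deg {V : Type} [Finite V] (G : SimpleGraph V) {u v : V} (p : G.Walk u v)
    (hp : p.IsPath) {x : V} (hx : x ∈ p.support) (hxu : x ≠ u) (hxv : x ≠ v) : 2 ≤ deg G x := by
  obtain ⟨i, hi, hil⟩ := SimpleGraph.Walk.mem_support_iff_exists_getVert.1 hx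
  have hi0 : i ≠ 0 := by
    rintro rfl
    exact hxu (by rw [← hi, SimpleGraph.Walk.getVert_zero])
  have hiL : i ≠ p.length := by
    rintro rfl
    exact hxv (by rw [← hi, SimpleGraph.Walk.getVert_length])
  obtain ⟨j, rfl⟩ := Nat.exists_eq_succ_of_ne_zero hi0
  have h1 : G.Adj (p.getVert j) (p.getVert (j + 1)) := p.adj_getVert_succ (by omega)
  have h2 : G.Adj (p.getVert (j + 1)) (p.getVert (j + 1 + 1)) := p.adj_getVert_succ (by omega)
  have hne : p.getVert j ≠ p.getVert (j + 1 + 1) := by
    intro h
    have := hp.getVert_injOn (show j ≤ p.length by omega)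
      (show j + 1 + 1 ≤ p.length by omega) h
    omega
  have hi' : p.getVert (j + 1) = x := hi
  rw [hi'] at h1 h2
  have hsub : ({p.getVert j, p.getVert (j + 1 + 1)} : Set V) ⊆ G.neighborSet x := by
    intro y hy
    rcases hy with rfl | rfl
    · exact h1.symm
    · exact h2
  have := Set.ncard_le_ncard hsub (Set.toFinite _)
  rw [Set.ncard_pair hne] at this
  exact this

open Classical in
/-- induction with a pending prefix `q` which starts at a vertex of degree `≥ 3` -/
private theorem br_aux {V : Type} [Finite V] (G : SimpleGraph V) (r : ℕ)
    (hr : ∀ u v (p : G.Walk u v), p.IsPath → u ≠ v → 3 ≤ deg G u → 3 ≤ deg G v →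
      (∀ x ∈ p.support, x ≠ u → x ≠ v → deg G x = 2) → r ≤ p.length)
    {u v : V} (p : G.Walk u v) : ∀ {s : V} (q : G.Walk s u), (q.append p).IsPath → 3 ≤ deg G s →
      (∀ x ∈ q.support, x ≠ s → ¬ 3 ≤ deg G x) →
      r * (p.support.tail.filter (fun x => decide (3 ≤ deg G x))).length ≤ q.length + p.length := by
  induction p with
  | nil =>
    intro s q _ _ _
    simp
  | @cons u w v h p ih =>
    intro s q hq hs hin
    have hqa : ((q.concat h).append p).IsPath := by
      rw [SimpleGraph.Walk.concat_append]
      exact hq
    have hsup : (SimpleGraph.Walk.cons h p).support.tail = w :: p.support.tail := by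
      rw [SimpleGraph.Walk.support_cons, List.tail_cons]
      exact (SimpleGraph.Walk.cons_tail_support p).symm
    rw [hsup]
    have hqc : (q.concat h).IsPath := hqa.of_append_left
    have hws : w ≠ s := by
      intro hws
      have hnd := hqc.support_nodup
      rw [SimpleGraph.Walk.support_concat, List.nodup_append] at hnd
      exact hnd.2.2 s (SimpleGraph.Walk.start_mem_support q) w (by simp) hws.symm
    by_cases hw : 3 ≤ deg G w
    · have hrl : r ≤ (q.concat h).length := by
        refine hr s w (q.concat h) hqc (Ne.symm hws) hs hw ?_
        intro x hx hxs hxw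
        have hx2 := two_le_deg G (q.concat h) hqc hx hxs hxw
        have hxq : x ∈ q.support := by
          rw [SimpleGraph.Walk.support_concat, List.mem_append] at hx
          rcases hx with hx | hx
          · exact hx
          · exact absurd (by simpa using hx) hxw
        have := hin x hxq hxs
        omega
      have hi := ih (SimpleGraph.Walk.nil : G.Walk w w)
        (by rw [SimpleGraph.Walk.nil_append]; exact hqa.of_append_right) hw
        (by
          intro x hx hxw
          rw [SimpleGraph.Walk.support_nil, List.mem_singleton] at hx
          exact absurd hx hxw)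
      rw [List.filter_cons_of_pos (by simpa using hw), List.length_cons]
      rw [SimpleGraph.Walk.length_nil] at hi
      rw [SimpleGraph.Walk.length_concat] at hrl
      rw [SimpleGraph.Walk.length_cons, Nat.mul_add, Nat.mul_one]
      omega
    · have hi := ih (q.concat h) hqa hs (by
        intro x hx hxs
        rw [SimpleGraph.Walk.support_concat, List.mem_append] at hx
        rcases hx with hx | hx
        · exact hin x hx hxs
        · have : x = w := by simpa using hx
          rw [this]; exact hw)
      rw [List.filter_cons_of_neg (by simpa using hw)]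
      rw [SimpleGraph.Walk.length_concat] at hi
      rw [SimpleGraph.Walk.length_cons]
      omega

open Classical in
theorem br_count {V : Type} [Finite V] (G : SimpleGraph V) (r : ℕ)
    (hr : ∀ u v (p : G.Walk u v), p.IsPath → u ≠ v → 3 ≤ deg G u → 3 ≤ deg G v →
      (∀ x ∈ p.support, x ≠ u → x ≠ v → deg G x = 2) → r ≤ p.length)
    {u v : V} (p : G.Walk u v) (hp : p.IsPath) :
    r * (p.support.filter (fun x => decide (3 ≤ deg G x))).length ≤ p.length + r := by
  induction p with
  | @nil u =>
    rw [SimpleGraph.Walk.support_nil, SimpleGraph.Walk.length_nil]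
    have : (([u] : List V).filter (fun x => decide (3 ≤ deg G x))).length ≤ 1 :=
      (List.length_filter_le _ _).trans (by simp)
    calc r * _ ≤ r * 1 := Nat.mul_le_mul_left _ this
      _ = 0 + r := by omega
  | @cons u w v h p ih =>
    by_cases hu : 3 ≤ deg G u
    · have ha := br_aux G r hr (SimpleGraph.Walk.cons h p) (SimpleGraph.Walk.nil : G.Walk u u)
        (by rw [SimpleGraph.Walk.nil_append]; exact hp) hu
        (by
          intro x hx hxw
          rw [SimpleGraph.Walk.support_nil, List.mem_singleton] at hx
          exact absurd hx hxw)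
      rw [SimpleGraph.Walk.support_cons, List.tail_cons, SimpleGraph.Walk.length_nil] at ha
      rw [SimpleGraph.Walk.support_cons, List.filter_cons_of_pos (by simpa using hu),
        List.length_cons, Nat.mul_add, Nat.mul_one]
      omega
    · have hi := ih hp.of_cons
      rw [SimpleGraph.Walk.support_cons, List.filter_cons_of_neg (by simpa using hu),
        SimpleGraph.Walk.length_cons]
      omega

open Classical in
private theorem sum_le {V : Type} (G : SimpleGraph V) (M : ℕ) (hM : ∀ v, deg G v ≤ M)
    (l : List V) : (l.map (deg G)).sum ≤
      M * (l.filter (fun x => decide (3 ≤ deg G x))).length + 2 * l.length := by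
  induction l with
  | nil => simp
  | cons x l ih =>
    rw [List.map_cons, List.sum_cons, List.length_cons]
    by_cases hx : 3 ≤ deg G x
    · rw [List.filter_cons_of_pos (by simpa using hx), List.length_cons, Nat.mul_add, Nat.mul_one]
      have := hM x
      omega
    · rw [List.filter_cons_of_neg (by simpa using hx)]
      omega

theorem deg_sum {V : Type} [Finite V] (G : SimpleGraph V) (r C : ℕ) (hr1 : 1 ≤ r)
    (hr : ∀ u v (p : G.Walk u v), p.IsPath → u ≠ v → 3 ≤ deg G u → 3 ≤ deg G v →
      (∀ x ∈ p.support, x ≠ u → x ≠ v → deg G x = 2) → r ≤ p.length)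
    (hC : ∀ v, deg G v ≤ C * r)
    {u v : V} (p : G.Walk u v) (hp : p.IsPath) :
    (p.support.map (deg G)).sum ≤ (C + 2) * (p.length + r) := by
  classical
  have h1 := sum_le G (C * r) hC p.support
  have h2 := br_count G r hr p hp
  have h3 : C * r * (p.support.filter (fun x => decide (3 ≤ deg G x))).length
      ≤ C * (p.length + r) := by
    rw [Nat.mul_assoc]
    exact Nat.mul_le_mul_left _ h2
  have h4 : 2 * p.support.length ≤ 2 * (p.length + r) := by
    rw [SimpleGraph.Walk.length_support]
    omega
  rw [Nat.add_mul]
  exact h1.trans (Nat.add_le_add h3 h4)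

theorem cycle_len {V : Type} [Finite V] (G : SimpleGraph V) (r : ℕ)
    (hr : ∀ u v (p : G.Walk u v), p.IsPath → u ≠ v → 3 ≤ deg G u → 3 ≤ deg G v →
      (∀ x ∈ p.support, x ≠ u → x ≠ v → deg G x = 2) → r ≤ p.length)
    {x : V} (C : G.Walk x x) (hC : C.IsCycle) {u v : V} (hu : u ∈ C.support)
    (hv : v ∈ C.support) (huv : u ≠ v) (hdu : 3 ≤ deg G u) (hdv : 3 ≤ deg G v) :
    r ≤ C.length := by
  classical
  have hC' : (C.rotate u hu).IsCycle := hC.rotate hu
  have hpt := hC'.isPath_tail
  have hlen : (C.rotate u hu).length = C.length := by simp
  have hnil : ¬ (C.rotate u hu).Nil := hC'.not_nil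
  have hv' : v ∈ (C.rotate u hu).support := by
    rw [SimpleGraph.Walk.mem_support_rotate_iff]
    exact hv
  have hvt : v ∈ (C.rotate u hu).tail.support := by
    rw [← SimpleGraph.Walk.cons_support_tail hnil, List.mem_cons] at hv'
    rcases hv' with h | h
    · exact absurd h.symm huv
    · exact h
  have hut : u ∈ (C.rotate u hu).tail.support := SimpleGraph.Walk.end_mem_support _
  have hb := br_count G r hr _ hpt
  have hlt : (C.rotate u hu).tail.length + 1 = (C.rotate u hu).length :=
    SimpleGraph.Walk.length_tail_add_one hnil
  have h2 : 2 ≤ ((C.rotate u hu).tail.support.filter (fun x => decide (3 ≤ deg G x))).length := by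
    have hnd := hpt.support_nodup.filter (fun x => decide (3 ≤ deg G x))
    have hsub : ({u, v} : Finset V) ⊆
        ((C.rotate u hu).tail.support.filter (fun x => decide (3 ≤ deg G x))).toFinset := by
      intro y hy
      rw [List.mem_toFinset, List.mem_filter]
      rw [Finset.mem_insert, Finset.mem_singleton] at hy
      rcases hy with rfl | rfl
      · exact ⟨hut, by simpa using hdu⟩
      · exact ⟨hvt, by simpa using hdv⟩
    have hc := Finset.card_le_card hsub
    rw [Finset.card_pair huv, List.toFinset_card_of_nodup hnd] at hc
    exact hc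
  have h3 : r * 2 ≤ (C.rotate u hu).tail.length + r := (Nat.mul_le_mul_left r h2).trans hb
  omega

end Pool.Agent.Helper95.UP
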