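import Pool.Agent.Helper83.OP.Final

/-!
# UP-L: cycles with at most one vertex of degree at least three

Let `C` be a cycle of the critical graph `G` with no two different vertices of degree `≥ 3`.  Rotate it such that it starts at a vertex
`v0` such that all its other vertices have degree two; `C = v0 w ...`, and `T` = the rest of `C` from `v0` to `w` (reversed).  `G - T` is
`1`-planar and contains the edge `v0 w`; an arc along this edge (`aug` with a walk of length one) gives `Aug (G - T) v0 w 16`,
and `insert_thread` gives `KPl 16 G` (helper83's trick).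
-/

open Set
open Pool.Agent.Helper83.OP

namespace Pool.Agent.Helper95.UP

private theorem lp_deg {V : Type} [Finite V] {G : SimpleGraph V} {x : V} (C : G.Walk x x)
    (hC : C.IsCycle) {z : V} (hz : z ∈ C.support) : 2 ≤ deg G z := by
  classical
  have hC' := hC.rotate hz
  have hn := hC'.not_nil
  have h1 : (C.rotate z hz).snd ∈ G.neighborSet z := (C.rotate z hz).adj_snd hn
  have h2 : (C.rotate z hz).penultimate ∈ G.neighborSet z := ((C.rotate z hz).adj_penultimate hn).symm
  have hne : (C.rotate z hz).snd ≠ (C.rotate z hz).penultimate := hC'.snd_ne_penultimate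
  rw [deg]
  have : ({(C.rotate z hz).snd, (C.rotate z hz).penultimate} : Set V).ncard = 2 :=
    Set.ncard_pair hne
  rw [← this]
  refine Set.ncard_le_ncard ?_ (Set.toFinite _)
  rintro a (rfl | rfl)
  · exact h1
  · exact h2

theorem loop16 {V : Type} [Finite V] (G : SimpleGraph V)
    (hcrit : ∀ e ∈ G.edgeSet, KPl 1 (G.deleteEdges {e})) {x : V} (C : G.Walk x x)
    (hC : C.IsCycle)
    (hno : ¬ ∃ u ∈ C.support, ∃ v ∈ C.support, u ≠ v ∧ 3 ≤ deg G u ∧ 3 ≤ deg G v) :
    KPl 16 G := by
  classical
  have hv0 : ∃ v0 ∈ C.support, ∀ z ∈ C.support, z ≠ v0 → deg G z = 2 := by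
    by_cases h : ∃ v0 ∈ C.support, 3 ≤ deg G v0
    · obtain ⟨v0, h1, h2⟩ := h
      refine ⟨v0, h1, fun z hz hne => ?_⟩
      have h3 := lp_deg C hC hz
      by_contra h4
      exact hno ⟨z, hz, v0, h1, hne, by omega, h2⟩
    · refine ⟨x, C.start_mem_support, fun z hz _ => ?_⟩
      have h3 := lp_deg C hC hz
      by_contra h4
      exact h ⟨z, hz, by omega⟩
  obtain ⟨v0, hv, hdeg⟩ := hv0
  obtain ⟨D, hD, hDs⟩ : ∃ D : G.Walk v0 v0, D.IsCycle ∧ ∀ z, z ∈ D.support ↔ z ∈ C.support :=
    ⟨C.rotate v0 hv, hC.rotate hv, fun z => by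
      rw [SimpleGraph.Walk.mem_support_rotate_iff]⟩
  cases D with
  | nil => exact absurd rfl hD.ne_nil
  | @cons _ w _ h P =>
    rw [SimpleGraph.Walk.cons_isCycle_iff] at hD
    obtain ⟨hP, he⟩ := hD
    have hPl : 1 ≤ P.length := by
      rcases Nat.eq_zero_or_pos P.length with h0 | h0
      · exact absurd (SimpleGraph.Walk.eq_of_length_eq_zero h0) h.ne'
      · exact h0
    have hin : ∀ z ∈ P.reverse.support, z ≠ v0 → z ≠ w → deg G z = 2 := by
      intro z hz h1 _
      rw [SimpleGraph.Walk.support_reverse, List.mem_reverse] at hz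
      refine hdeg z ((hDs z).1 ?_) h1
      rw [SimpleGraph.Walk.support_cons]
      exact List.mem_cons_of_mem _ hz
    obtain ⟨f, hf⟩ : ∃ f, f ∈ P.reverse.edges := by
      refine List.exists_mem_of_ne_nil _ ?_
      intro h0
      have h2 := congrArg List.length h0
      rw [SimpleGraph.Walk.length_edges, SimpleGraph.Walk.length_reverse, List.length_nil] at h2
      omega
    have hk1 : KPl 1 (G.deleteEdges {f | f ∈ P.reverse.edges}) :=
      (hcrit f (SimpleGraph.Walk.edges_subset_edgeSet _ hf)).mono (by
        apply SimpleGraph.deleteEdges_anti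
        simpa using hf)
    have hadj : (G.deleteEdges {f | f ∈ P.reverse.edges}).Adj v0 w := by
      rw [SimpleGraph.deleteEdges_adj]
      refine ⟨h, ?_⟩
      rw [SimpleGraph.Walk.edges_reverse]
      simpa using he
    have ha := aug _ hk1 v0 w h.ne (SimpleGraph.Walk.cons hadj SimpleGraph.Walk.nil) 1 0
      (by simp) (by
        intro z hz h1 h2
        simp only [SimpleGraph.Walk.support_cons, SimpleGraph.Walk.support_nil, List.mem_cons,
          List.not_mem_nil, or_false] at hz
        rcases hz with hz | hz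
        · exact absurd hz h1
        · exact absurd hz h2)
    have := insert_thread G v0 w h.ne P.reverse hP.reverse hin _ ha
    simpa using this

end Pool.Agent.Helper95.UP
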