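import Pool.Agent.Helper95.UP.BrCount
import Pool.Agent.Helper83.OP.NodePath

/-!
# UP-N: costs in the node graph

`Z : Plz H` (nodes: `vn v` for the vertices, `bn f` for the edges of `H`, two crossing edges share their break node; arcs: the
half edges).  `dg j` = number of arcs at `j`, at most `deg H v` for `j = vn v` and at most `4` for `j = bn f` (`node_deg`, OP/NodePath).
The cost of a walk of the node graph is the sum of `dg a + dg b` over its darts `(a, b)`.

`node_walk`: by induction on the walk `Q` as `NodePath.exists_walk`: every edge `f = uw` of `Q` gives two darts `(vn u, bn f)`,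
`(bn f, vn w)` of cost at most `deg H u + 4` and `4 + deg H w`.  So the total is at most `2 * (sum of the degrees on Q) + 8 * Q.length`.

`node_card`: at most `dg j` members of a family of pairwise edge-disjoint subpaths pass through a node: `j = vn v`: every
`T q` of positive length through `v` contains an edge `f` of `H` at `v`, the half edge of `f` at `v` is an arc at `j`; different `q` give
different arcs (pairwise disjoint sets of edges).  `j = bn f`: every `T q` through `j` contains an edge `f'` with `bn f' = bn f`, the arcs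
`(f', false)` are arcs at `j`, different for different `q`.
-/

open Set
open Pool.Agent.Helper83.OP

namespace Pool.Agent.Helper95.UP

/-- number of arcs at the node `j` -/
noncomputable def dg {J I : Type} (src tgt : I → J) (j : J) : ℕ :=
  {i | src i = j ∨ tgt i = j}.ncard

/-- the cost of a walk -/
def wcost {J : Type} {N : SimpleGraph J} (d : J → ℕ) {u v : J} (p : N.Walk u v) : ℕ :=
  (p.darts.map (fun t => d t.fst + d t.snd)).sum

private theorem dg_vn {V : Type} [Finite V] (H : SimpleGraph V) (Z : Plz H) (y : V) :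
    dg Z.src Z.tgt (Z.vn y) ≤ deg H y := (node_deg H Z).1 y

private theorem dg_bn {V : Type} [Finite V] (H : SimpleGraph V) (Z : Plz H) (f : H.edgeSet) :
    dg Z.src Z.tgt (Z.bn f) ≤ 4 := (node_deg H Z).2 f

private theorem node_walk_aux {V : Type} [Finite V] (H : SimpleGraph V) (Z : Plz H) {u v : V}
    (Q : H.Walk u v) :
    ∃ p : (nodeGraph Z.src Z.tgt univ).Walk (Z.vn u) (Z.vn v),
      wcost (dg Z.src Z.tgt) p + deg H u ≤ 2 * (Q.support.map (deg H)).sum + 8 * Q.length ∧
      ∀ j ∈ p.support, (∃ x ∈ Q.support, j = Z.vn x) ∨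
        ∃ f : H.edgeSet, (f : Sym2 V) ∈ Q.edges ∧ j = Z.bn f := by
  induction Q with
  | @nil w =>
    refine ⟨SimpleGraph.Walk.nil, ?_, fun x hx => Or.inl ⟨w, by simp, ?_⟩⟩
    · simp [wcost]
      omega
    · simpa using hx
  | @cons u w v h Q ih =>
    obtain ⟨p, hp, hs⟩ := ih
    have hf : ∀ b, ((⟨s(u, w), h⟩ : H.edgeSet), b) ∈ (univ : Set (H.edgeSet × Bool)) :=
      fun b => mem_univ _
    have h1 := NodePath.adj_node H Z univ ⟨s(u, w), h⟩ hf u (Sym2.mem_mk_left _ _)
    have h2 := NodePath.adj_node H Z univ ⟨s(u, w), h⟩ hf w (Sym2.mem_mk_right _ _)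
    have d1 := dg_vn H Z u
    have d2 := dg_vn H Z w
    have d3 := dg_bn H Z ⟨s(u, w), h⟩
    refine ⟨SimpleGraph.Walk.cons h1 (SimpleGraph.Walk.cons h2.symm p), ?_, ?_⟩
    · unfold wcost at hp ⊢
      rw [SimpleGraph.Walk.darts_cons, SimpleGraph.Walk.darts_cons, List.map_cons, List.map_cons,
        List.sum_cons, List.sum_cons, SimpleGraph.Walk.support_cons, List.map_cons, List.sum_cons,
        SimpleGraph.Walk.length_cons]
      dsimp only
      omega
    · intro x hx
      rw [SimpleGraph.Walk.support_cons, SimpleGraph.Walk.support_cons, List.mem_cons,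
        List.mem_cons] at hx
      rcases hx with hx | hx | hx
      · exact Or.inl ⟨u, by simp, hx⟩
      · exact Or.inr ⟨_, by rw [SimpleGraph.Walk.edges_cons]; exact List.mem_cons_self, hx⟩
      · rcases hs x hx with ⟨y, hy, hxy⟩ | ⟨f, hf1, hf2⟩
        · exact Or.inl ⟨y, by
            rw [SimpleGraph.Walk.support_cons]; exact List.mem_cons_of_mem _ hy, hxy⟩
        · exact Or.inr ⟨f, by
            rw [SimpleGraph.Walk.edges_cons]; exact List.mem_cons_of_mem _ hf1, hf2⟩

theorem node_walk {V : Type} [Finite V] (H : SimpleGraph V) (Z : Plz H) {u v : V}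
    (Q : H.Walk u v) :
    ∃ p : (nodeGraph Z.src Z.tgt univ).Walk (Z.vn u) (Z.vn v),
      wcost (dg Z.src Z.tgt) p ≤ 2 * (Q.support.map (deg H)).sum + 8 * Q.length ∧
      ∀ j ∈ p.support, (∃ x ∈ Q.support, j = Z.vn x) ∨
        ∃ f : H.edgeSet, (f : Sym2 V) ∈ Q.edges ∧ j = Z.bn f := by
  obtain ⟨p, hp, hs⟩ := node_walk_aux H Z Q
  exact ⟨p, le_trans (Nat.le_add_right _ _) hp, hs⟩

private theorem exists_edge_at {V : Type} {H : SimpleGraph V} {u v : V} (p : H.Walk u v)
    (hp : 1 ≤ p.length) {x : V} (hx : x ∈ p.support) : ∃ e ∈ p.edges, x ∈ e := by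
  induction p with
  | nil => simp at hp
  | @cons u w v h Q ih =>
    rw [SimpleGraph.Walk.support_cons, List.mem_cons] at hx
    rcases hx with rfl | hx
    · exact ⟨s(x, w), by rw [SimpleGraph.Walk.edges_cons]; exact List.mem_cons_self,
        Sym2.mem_mk_left _ _⟩
    · by_cases hQ : 1 ≤ Q.length
      · obtain ⟨e, he, hxe⟩ := ih hQ hx
        exact ⟨e, by rw [SimpleGraph.Walk.edges_cons]; exact List.mem_cons_of_mem _ he, hxe⟩
      · have h0 : Q.length = 0 := by omega
        have hxw : x = w := by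
          cases Q with
          | nil => simpa using hx
          | cons h' Q' => simp at h0
        rw [hxw]
        exact ⟨s(u, w), by rw [SimpleGraph.Walk.edges_cons]; exact List.mem_cons_self,
          Sym2.mem_mk_right _ _⟩

theorem node_card {V : Type} [Finite V] (H : SimpleGraph V) (Z : Plz H) {Q : Type} [Finite Q]
    (a b : Q → V) (T : ∀ q, H.Walk (a q) (b q)) (h1 : ∀ q, 1 ≤ (T q).length)
    (hd : ∀ q q' f, f ∈ (T q).edges → f ∈ (T q').edges → q = q') (j : Z.J) :
    {q | (∃ x ∈ (T q).support, j = Z.vn x) ∨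
      ∃ f : H.edgeSet, (f : Sym2 V) ∈ (T q).edges ∧ j = Z.bn f}.ncard ≤ dg Z.src Z.tgt j := by
  classical
  have key : ∀ q, ((∃ x ∈ (T q).support, j = Z.vn x) ∨
      ∃ f : H.edgeSet, (f : Sym2 V) ∈ (T q).edges ∧ j = Z.bn f) →
      ∃ i : H.edgeSet × Bool, (i.1 : Sym2 V) ∈ (T q).edges ∧ (Z.src i = j ∨ Z.tgt i = j) := by
    rintro q (⟨x, hx, rfl⟩ | ⟨f, hf, rfl⟩)
    · obtain ⟨e, he, hxe⟩ := exists_edge_at (T q) (h1 q) hx
      have heH : e ∈ H.edgeSet := (T q).edges_subset_edgeSet he
      have hends := Z.ends ⟨e, heH⟩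
      have hxe' : x ∈ s(Z.a ⟨e, heH⟩, Z.b ⟨e, heH⟩) := by
        rw [← hends]
        exact hxe
      rcases Sym2.mem_iff.mp hxe' with h | h
      · exact ⟨(⟨e, heH⟩, false), he, Or.inl (by rw [h]; rfl)⟩
      · exact ⟨(⟨e, heH⟩, true), he, Or.inr (by rw [h]; rfl)⟩
    · exact ⟨(f, false), hf, Or.inr rfl⟩
  rcases Set.eq_empty_or_nonempty {q | (∃ x ∈ (T q).support, j = Z.vn x) ∨
      ∃ f : H.edgeSet, (f : Sym2 V) ∈ (T q).edges ∧ j = Z.bn f} with he | ⟨q0, hq0⟩
  · rw [he, Set.ncard_empty]
    exact Nat.zero_le _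
  obtain ⟨i0, -, -⟩ := key q0 hq0
  have : Nonempty (H.edgeSet × Bool) := ⟨i0⟩
  choose! g hg1 hg2 using key
  unfold dg
  refine Set.ncard_le_ncard_of_injOn g (fun q hq => hg2 q hq) ?_ (Set.toFinite _)
  intro q hq q' hq' heq
  refine hd q q' (g q).1 (hg1 q hq) ?_
  rw [heq]
  exact hg1 q' hq'

end Pool.Agent.Helper95.UP
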