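import Pool.Agent.Helper71.UT.SegEx

/-!
# UP-SP: a path with inner vertices of degree two is contained in a segment between vertices of degree at least three
-/

open Set
open Pool.Agent.Helper83.OP
open Pool.Agent.Helper71.UT

namespace Pool.Agent.Helper95.UP

private theorem sp_edges {V : Type} [Finite V] {G : SimpleGraph V} {Q : Type}
    (C : Cut G {v | deg G v ≠ 2} Q) {u v : V} (p : G.Walk u v) (hp : p.IsPath)
    (hin : ∀ x ∈ p.support, x ≠ u → x ≠ v → deg G x = 2) (q : Q)
    (hq : ∀ w, s(u, w) ∈ p.edges → s(u, w) ∈ (C.sg.T q).edges) :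
    ∀ f ∈ p.edges, f ∈ (C.sg.T q).edges := by
  induction p with
  | nil => simp
  | @cons u w v h p' ih =>
    rw [SimpleGraph.Walk.cons_isPath_iff] at hp
    have h0 : s(u, w) ∈ (C.sg.T q).edges := hq w (by simp)
    intro f hf
    rw [SimpleGraph.Walk.edges_cons, List.mem_cons] at hf
    rcases hf with rfl | hf
    · exact h0
    · have hwv : w ≠ v := by
        rintro rfl
        rw [SimpleGraph.Walk.isPath_iff_eq_nil] at hp
        rw [hp.1] at hf
        simp at hf
      have hwu : w ≠ u := h.ne'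
      have hw2 : deg G w = 2 := hin w (by simp) hwu hwv
      have hws : w ∈ (C.sg.T q).support := SimpleGraph.Walk.snd_mem_support_of_mem_edges _ h0
      have hwa : w ≠ C.sg.a q := by
        rintro rfl
        exact C.ma q hw2
      have hwb : w ≠ C.sg.b q := by
        rintro rfl
        exact C.mb q hw2
      refine ih hp.1 ?_ ?_ f hf
      · intro x hx hxw hxv
        refine hin x (by simp [hx]) ?_ hxv
        rintro rfl
        exact hp.2 hx
      · intro w' hw'
        exact edge_inner (C.sg.path q) hws hwa hwb hw2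
          (SimpleGraph.Walk.edges_subset_edgeSet p' hw')

theorem seg_path {V : Type} [Finite V] {G : SimpleGraph V} {Q : Type}
    (C : Cut G {v | deg G v ≠ 2} Q) {u v : V} (p : G.Walk u v) (hp : p.IsPath)
    (hin : ∀ x ∈ p.support, x ≠ u → x ≠ v → deg G x = 2) (h1 : 1 ≤ p.length) :
    ∃ q, p.length ≤ C.sg.len q := by
  classical
  have hex : ∃ q, ∀ w, s(u, w) ∈ p.edges → s(u, w) ∈ (C.sg.T q).edges := by
    cases p with
    | nil => simp at h1
    | @cons _ w _ h p' =>
      obtain ⟨q, hq⟩ := C.sg.cover s(u, w) h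
      refine ⟨q, fun w' hw' => ?_⟩
      rw [SimpleGraph.Walk.edges_cons, List.mem_cons] at hw'
      rcases hw' with hw' | hw'
      · rw [hw']; exact hq
      · exfalso
        rw [SimpleGraph.Walk.cons_isPath_iff] at hp
        exact hp.2 (SimpleGraph.Walk.fst_mem_support_of_mem_edges _ hw')
  obtain ⟨q, hq⟩ := hex
  refine ⟨q, ?_⟩
  have h2 := sp_edges C p hp hin q hq
  have h3 := (hp.isTrail.edges_nodup.subperm h2).length_le
  rw [SimpleGraph.Walk.length_edges, SimpleGraph.Walk.length_edges] at h3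
  exact h3

/-- the upper bound for all paths with inner vertices of degree two -/
theorem path_le {V : Type} [Finite V] (G : SimpleGraph V) (W : ℕ) (hdeg : ∀ v, deg G v ≠ 1)
    (hcyc : ∀ (x : V) (C : G.Walk x x), C.IsCycle →
      ∃ u ∈ C.support, ∃ v ∈ C.support, u ≠ v ∧ 3 ≤ deg G u ∧ 3 ≤ deg G v)
    (hW : ∀ u v (p : G.Walk u v), p.IsPath → u ≠ v → 3 ≤ deg G u → 3 ≤ deg G v →
      (∀ x ∈ p.support, x ≠ u → x ≠ v → deg G x = 2) → p.length ≤ W)
    {u v : V} (p : G.Walk u v) (hp : p.IsPath)
    (hin : ∀ x ∈ p.support, x ≠ u → x ≠ v → deg G x = 2) : p.length ≤ W := by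
  rcases Nat.eq_zero_or_pos p.length with h0 | h0
  · omega
  · obtain ⟨Q, hQ, ⟨C⟩⟩ := exists_cut (G := G) (M := {v | deg G v ≠ 2}) (fun v hv => hv) (by
      intro x C hC
      obtain ⟨u, hu, v, hv, huv, h1, h2⟩ := hcyc x C hC
      exact ⟨u, hu, v, hv, huv, by simp only [Set.mem_setOf_eq]; omega,
        by simp only [Set.mem_setOf_eq]; omega⟩)
    obtain ⟨q, hq⟩ := seg_path C p hp hin h0
    have hpos : ∀ z, z ∈ (C.sg.T q).support → deg G z ≠ 2 → 3 ≤ deg G z := by
      intro z hz hz2
      obtain ⟨w, hw⟩ := exists_edge (C.sg.T q) (C.sg.ne q) hz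
      have hadj : G.Adj z w := SimpleGraph.Walk.edges_subset_edgeSet _ hw
      have h3 : deg G z ≠ 0 := by
        intro h4
        rw [deg, Set.ncard_eq_zero (Set.toFinite _)] at h4
        have : w ∈ G.neighborSet z := hadj
        rw [h4] at this
        exact this
      have := hdeg z
      omega
    refine hq.trans (hW _ _ (C.sg.T q) (C.sg.path q) (C.sg.ne q)
      (hpos _ (SimpleGraph.Walk.start_mem_support _) (C.ma q))
      (hpos _ (SimpleGraph.Walk.end_mem_support _) (C.mb q)) (C.sg.inner q))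

end Pool.Agent.Helper95.UP
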