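import Pool.Agent.Helper95.UP.PLMain
import Pool.Agent.Helper95.UP.BrCount
import Pool.Agent.Helper95.UP.NodeCost
import Pool.Agent.Helper95.UP.SegPath
import Pool.Agent.Helper95.UP.Loop
import Pool.Agent.Helper71.UT.MK
import Pool.Agent.Helper71.UT.ToThreads
import Pool.Agent.Helper83.LN.Defs
import Pool.Agent.Helper83.OP.Final

/-!
# UP: assembly
-/

open Set
open Pool.Agent.Helper83.OP
open Pool.Agent.Helper71.UT

namespace Pool.Agent.Helper95.UP

/-- monotonicity in the number of crossings -/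
theorem kpl_le {V : Type} {G : SimpleGraph V} {k k' : ℕ} (h : KPl k G) (hk : k ≤ k') :
    KPl k' G := by
  obtain ⟨pos, γ, hd, hc⟩ := h
  exact ⟨pos, γ, hd, fun e he => (hc e he).trans (by exact_mod_cast hk)⟩

/-- no vertex of degree one -/
theorem crit_deg {V : Type} [Finite V] (G : SimpleGraph V) (h1 : ¬ KPl 1 G)
    (hcrit : ∀ e ∈ G.edgeSet, KPl 1 (G.deleteEdges {e})) (v : V) : deg G v ≠ 1 := by
  intro hv
  have hv' := hv
  unfold deg at hv'
  rw [Set.ncard_eq_one] at hv'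
  obtain ⟨w, hw⟩ := hv'
  have hvw : G.Adj v w := by
    have : w ∈ G.neighborSet v := by rw [hw]; rfl
    exact this
  exact h1 (pendant G v w hvw hv (hcrit _ hvw))

theorem sum_deg_mono {V : Type} [Finite V] {H G : SimpleGraph V} (h : H ≤ G) (l : List V) :
    (l.map (deg H)).sum ≤ (l.map (deg G)).sum := by
  induction l with
  | nil => simp
  | cons a l ih =>
    simp only [List.map_cons, List.sum_cons]
    have := deg_mono h a
    omega

theorem main_of (A C : ℕ)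
    (short_cycle : ∃ K r0 : ℕ, 1 ≤ K ∧ ∀ (V : Type) [Finite V] (G : SimpleGraph V)
      (e0 : Sym2 V) (X : Sym2 V → Sym2 V → Prop) (r : ℕ), e0 ∈ G.edgeSet →
      (∀ f f', X f f' → X f' f) →
      (∀ f ∈ G.edgeSet, f ≠ e0 → {f' | f' ∈ G.edgeSet ∧ f' ≠ e0 ∧ X f f'}.ncard ≤ 1) →
      PlanarLike (G.deleteEdges {e0}) X → (∀ v, deg G v ≠ 1) → r0 ≤ r →
      (∀ u v (p : G.Walk u v), p.IsPath → u ≠ v → 3 ≤ deg G u → 3 ≤ deg G v →
        (∀ x ∈ p.support, x ≠ u → x ≠ v → deg G x = 2) → r ≤ p.length) →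
      (∀ u v (p : G.Walk u v), p.IsPath → (∀ x ∈ p.support, x ≠ u → x ≠ v → deg G x = 2) →
        p.length ≤ r ^ A) →
      ∃ (x : V) (C : G.Walk x x), C.IsCycle ∧ vol G (ball G x (C.length / K)) ≤ Nat.sqrt r)
    (surg_close : ∀ C K1 : ℕ, ∃ K : ℕ, ∀ (V T : Type) [Finite V] [Fintype T]
      (G H : SimpleGraph V) (Th : Pool.Agent.Helper83.LN.Threads G T) (Z : Plz H)
      (_ : Layout Z.J (H.edgeSet × Bool) Z.src Z.tgt), H.edgeSet.Nonempty → H ≤ G →
      ∀ (pl : V → V) (r : ℕ) (S0 : Finset T), 1 ≤ r → (∀ v, deg G v ≤ C * r) →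
      S0.card ≤ C * r → (∀ τ, r ≤ Th.len τ) → (∀ τ, τ ∉ S0 → Th.len τ ≤ 2 * r) →
      (∀ τ, τ ∉ S0 → (∀ t < Th.len τ, H.Adj (Th.x τ t) (Th.x τ (t + 1))) ∧
        pl (Th.x τ 0) = Th.x τ 0 ∧ pl (Th.x τ (Th.len τ)) = Th.x τ (Th.len τ)) →
      (∀ τ, ∃ l, Pool.Agent.Helper83.LN.Wk Z.src Z.tgt (Z.vn (pl (Th.x τ 0)))
        (Z.vn (pl (Th.x τ (Th.len τ)))) l ∧
        Pool.Agent.Helper83.LN.wcost
          (fun i => dg Z.src Z.tgt (Z.src i) + dg Z.src Z.tgt (Z.tgt i)) l ≤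
          K1 * Th.len τ) → KPl K G)
    (conv : ∀ {V : Type} [Finite V] (H : SimpleGraph V) (Z : Plz H) {u v : V}
      (p : H.Walk u v), ∃ l, Pool.Agent.Helper83.LN.Wk Z.src Z.tgt (Z.vn u) (Z.vn v) l ∧
        Pool.Agent.Helper83.LN.wcost
          (fun i => dg Z.src Z.tgt (Z.src i) + dg Z.src Z.tgt (Z.tgt i)) l ≤
          2 * (p.support.map (deg H)).sum + 8 * p.length) :
    ∃ k : ℕ, ∀ (V : Type) [Fintype V] (G : SimpleGraph V) (r : ℕ), ¬ KPl 1 G →
      (∀ e ∈ G.edgeSet, KPl 1 (G.deleteEdges {e})) → ThrLen G r (r ^ A) →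
      (∀ v, deg G v ≤ C * r) → KPl k G := by
  classical
  obtain ⟨K, r0, hK, hM1⟩ := short_cycle
  obtain ⟨K2, hK2⟩ := surg_close (C + 2) ((2 * C + 12) * (100 * K + 1))
  obtain ⟨r1, hr1d⟩ : ∃ r1, r1 = r0 + 64 * K := ⟨_, rfl⟩
  obtain ⟨k3, hk3⟩ := Pool.Agent.Helper83.OP.main (r1 ^ A + 1)
  refine ⟨16 + K2 + k3, fun V _ G r h1 hcrit hthr hdegr => ?_⟩
  -- closed threads
  by_cases hcyc : ∀ (x : V) (D : G.Walk x x), D.IsCycle →
      ∃ u ∈ D.support, ∃ v ∈ D.support, u ≠ v ∧ 3 ≤ deg G u ∧ 3 ≤ deg G v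
  swap
  · push Not at hcyc
    obtain ⟨x, D, hD, hno⟩ := hcyc
    refine kpl_le (loop16 G hcrit D hD ?_) (by omega)
    rintro ⟨u, hu, v, hv, huv, h2, h3⟩
    exact absurd (hno u hu v hv huv h2) (by omega)
  have hdeg := crit_deg G h1 hcrit
  have hlow : ∀ u v (p : G.Walk u v), p.IsPath → u ≠ v → 3 ≤ deg G u → 3 ≤ deg G v →
      (∀ x ∈ p.support, x ≠ u → x ≠ v → deg G x = 2) → r ≤ p.length :=
    fun u v p hp huv hu hv hin => (hthr u v p hp huv hu hv hin).1
  have hup : ∀ u v (p : G.Walk u v), p.IsPath →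
      (∀ x ∈ p.support, x ≠ u → x ≠ v → deg G x = 2) → p.length ≤ r ^ A :=
    fun u v p hp hin => path_le G (r ^ A) hdeg hcyc
      (fun u v p hp huv hu hv hin => (hthr u v p hp huv hu hv hin).2) p hp hin
  rcases Nat.lt_or_ge r r1 with hr | hr
  · -- bounded threads
    refine kpl_le (hk3 V G h1 hcrit ?_) (by omega)
    intro u v p hp hin
    have h2 := hup u v p hp (fun x hx _ _ => hin x hx)
    rw [SimpleGraph.Walk.length_support]
    have h3 : r ^ A ≤ r1 ^ A := Nat.pow_le_pow_left hr.le A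
    omega
  refine kpl_le ?_ (show K2 ≤ 16 + K2 + k3 by omega)
  have hr1 : 1 ≤ r := by omega
  have hne : ∃ e0, e0 ∈ G.edgeSet := by
    by_contra hcon
    push Not at hcon
    have : G = ⊥ := by
      rw [← SimpleGraph.edgeSet_eq_empty]
      exact Set.eq_empty_of_forall_notMem hcon
    exact h1 (this ▸ kpl_bot 1)
  obtain ⟨e0, he0⟩ := hne
  obtain ⟨pos, γ, hd, hc⟩ := hcrit e0 he0
  have hsc := hM1 V G e0 (CrossRel γ) r he0 (crossRel_symm γ)
    (fun f hf hf0 => partner_le G e0 γ hc f hf hf0) (planarLike_of_drawing _ pos γ hd) hdeg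
    (by omega) hlow hup
  have hg : ∀ (x : V) (D : G.Walk x x), D.IsCycle → 64 * K ≤ D.length := by
    intro x D hD
    obtain ⟨u, hu, v, hv, huv, h2, h3⟩ := hcyc x D hD
    have := cycle_len G r hlow D hD hu hv huv h2 h3
    omega
  obtain ⟨e, x, S, pl, he, hxe, hxS, hplS, hvol, hconn, hwalk⟩ :=
    places K hK V G (Nat.sqrt r) hsc hg
  obtain ⟨Q, hQ, Sg, S0, hlen, hlen2, hS0, hS0c⟩ :=
    marks G r hr1 hdeg hlow hcyc S x hconn
  have hQf : Fintype Q := Fintype.ofFinite Q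
  -- the planarised drawing
  obtain ⟨pos', γ', hd', hc'⟩ := hcrit e he
  obtain ⟨Z, ⟨PZ⟩⟩ := planarize (G.deleteEdges {e}) pos' γ' hd' (by
    intro f hf
    have := hc' f hf
    exact_mod_cast this)
  have hJ : Finite Z.J := Z.fin
  have hst : ∀ i, Z.src i ≠ Z.tgt i := by
    rintro ⟨f, b⟩
    cases b
    · exact Z.vn_ne _ _
    · exact (Z.vn_ne _ _).symm
  obtain ⟨L⟩ := exists_layout hst PZ
  have hHne : (G.deleteEdges {e}).edgeSet.Nonempty := by
    obtain ⟨z, D, hD, -⟩ := hsc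
    have h3 := hD.three_le_length
    have hnd := hD.isTrail.edges_nodup
    by_contra hcon
    rw [Set.not_nonempty_iff_eq_empty] at hcon
    have hall : ∀ f ∈ D.edges, f = e := by
      intro f hf
      by_contra hfe
      have : f ∈ (G.deleteEdges {e}).edgeSet := by
        rw [SimpleGraph.edgeSet_deleteEdges]
        exact ⟨SimpleGraph.Walk.edges_subset_edgeSet D hf, hfe⟩
      rw [hcon] at this
      exact this
    have h4 : D.edges.length ≤ 1 := by
      have h5 := (hnd.subperm (l₂ := [e]) (fun f hf => by simp [hall f hf])).length_le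
      simpa using h5
    rw [SimpleGraph.Walk.length_edges] at h4
    omega
  have hle : G.deleteEdges {e} ≤ G := SimpleGraph.deleteEdges_le _
  refine hK2 V Q G (G.deleteEdges {e}) (toThreads Sg) Z L hHne hle pl r
    (Set.toFinite S0).toFinset hr1 ?_ ?_ ?_ ?_ ?_ ?_
  · intro v
    exact (hdegr v).trans (Nat.mul_le_mul_right _ (by omega))
  · rw [← Set.ncard_eq_toFinset_card]
    have h2 : Nat.sqrt r ≤ r := Nat.sqrt_le_self r
    calc S0.ncard ≤ vol G S + 1 := hS0c
      _ ≤ r + r := by omega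
      _ = 2 * r := by ring
      _ ≤ (C + 2) * r := Nat.mul_le_mul_right _ (by omega)
  · intro q
    rw [toThreads_len]
    exact hlen q
  · intro q hq
    rw [Set.Finite.mem_toFinset] at hq
    rw [toThreads_len]
    exact (hlen2 q hq).le
  · intro q hq
    rw [Set.Finite.mem_toFinset, hS0] at hq
    push Not at hq
    refine ⟨?_, ?_, ?_⟩
    · intro t ht
      have hadj := (toThreads Sg).adj q t ht
      rw [SimpleGraph.deleteEdges_adj]
      refine ⟨hadj, ?_⟩
      intro h2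
      rw [Set.mem_singleton_iff] at h2
      rw [← h2, Sym2.mem_iff] at hxe
      rcases hxe with h3 | h3
      · exact hq _ ((toThreads_support Sg q _).2 ⟨t, ht.le, rfl⟩) (h3 ▸ hxS)
      · exact hq _ ((toThreads_support Sg q _).2 ⟨t + 1, ht, rfl⟩) (h3 ▸ hxS)
    · exact hplS _ (hq _ ((toThreads_support Sg q _).2 ⟨0, Nat.zero_le _, rfl⟩))
    · exact hplS _ (hq _ ((toThreads_support Sg q _).2 ⟨_, le_rfl, rfl⟩))
  · intro q
    rw [toThreads_zero, toThreads_last, toThreads_len]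
    obtain ⟨p, hp⟩ := hwalk _ _ (Sg.T q) (Sg.path q) (Sg.ne q) (Sg.inner q)
    obtain ⟨l, hl, hlc⟩ := conv (G.deleteEdges {e}) Z p.bypass
    refine ⟨l, hl, hlc.trans ?_⟩
    have hb : p.bypass.length ≤ p.length := p.length_bypass_le_length
    have h2 : (p.bypass.support.map (deg (G.deleteEdges {e}))).sum ≤
        (p.bypass.support.map (deg G)).sum := sum_deg_mono hle _
    have h3 := deg_sum G r C hr1 hlow hdegr (p.bypass.mapLe hle)
      ((SimpleGraph.Walk.isPath_mapLe _).2 p.bypass_isPath)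
    rw [SimpleGraph.Walk.support_mapLe_eq_support, SimpleGraph.Walk.length_map] at h3
    have h4 : r ≤ Sg.len q := hlen q
    have h5 : (Sg.T q).length = Sg.len q := rfl
    rw [h5] at hp
    have h6 : p.bypass.length + r ≤ (100 * K + 1) * Sg.len q := by
      calc p.bypass.length + r ≤ 100 * K * Sg.len q + Sg.len q := by omega
        _ = (100 * K + 1) * Sg.len q := by ring
    calc 2 * (p.bypass.support.map (deg (G.deleteEdges {e}))).sum + 8 * p.bypass.length
        ≤ 2 * ((C + 2) * (p.bypass.length + r)) + 8 * (p.bypass.length + r) := by omega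
      _ = (2 * C + 12) * (p.bypass.length + r) := by ring
      _ ≤ (2 * C + 12) * ((100 * K + 1) * Sg.len q) := Nat.mul_le_mul_left _ h6
      _ = (2 * C + 12) * (100 * K + 1) * Sg.len q := by ring

end Pool.Agent.Helper95.UP
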