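import Pool.Agent.Helper95.UP.Assemble
import Pool.Agent.Helper63.UP.Transfer
import Pool.Agent.Helper93.UP.LD

/-!
# UP: 1-planar-critical graphs with polynomially comparable threads
-/

open Pool.Agent.Helper83.OP

namespace Pool.Agent.Helper95.UP

theorem main (A C : ℕ) : ∃ k : ℕ, ∀ (V : Type) [Fintype V] (G : SimpleGraph V) (r : ℕ),
    ¬ KPl 1 G → (∀ e ∈ G.edgeSet, KPl 1 (G.deleteEdges {e})) → ThrLen G r (r ^ A) →
    (∀ v, deg G v ≤ C * r) → KPl k G :=
  main_of A C (Pool.Agent.Helper63.UP.short_cycle A) Pool.Agent.Helper93.UP.surg_close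
    (fun H Z _ _ p => Pool.Agent.Helper93.UP.walk_cost Z p)

end Pool.Agent.Helper95.UP
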