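import Pool.Agent.Helper95.UP.Defs

open Set
open Pool.Agent.Helper83.OP

namespace Pool.Agent.Helper95.UP

/-- M1 (helper63): a cycle which is short in comparison with the radius of the balls of small volume
around one of its vertices.  `n0 = Nat.sqrt r`. -/
theorem short_cycle (A : ℕ) : ∃ K r0 : ℕ, 1 ≤ K ∧ ∀ (V : Type) [Finite V] (G : SimpleGraph V)
    (e0 : Sym2 V) (X : Sym2 V → Sym2 V → Prop) (r : ℕ), e0 ∈ G.edgeSet →
    (∀ f f', X f f' → X f' f) →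
    (∀ f ∈ G.edgeSet, f ≠ e0 → {f' | f' ∈ G.edgeSet ∧ f' ≠ e0 ∧ X f f'}.ncard ≤ 1) →
    PlanarLike (G.deleteEdges {e0}) X → (∀ v, deg G v ≠ 1) → r0 ≤ r →
    (∀ u v (p : G.Walk u v), p.IsPath → (∀ x ∈ p.support, x ≠ u → x ≠ v → deg G x = 2) →
      p.length ≤ r ^ A) →
    ∃ (x : V) (C : G.Walk x x), C.IsCycle ∧ vol G (ball G x (C.length / K)) ≤ Nat.sqrt r := by
  sorry

end Pool.Agent.Helper95.UP
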