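import Pool.Agent.Helper95.UP.PLPlace

/-!
# UP-PL3: every segment can be drawn between the new places along a walk of comparable length

`places`: by `exists_opn` and `J = m / (16 K)` (so `16 K J ≤ m < 16 K (J + 1)`, and `4 ≤ J` as `m ≥ 64 K`),
`e = xy`, `pl = plc ..`, `S` = vertices at distance at most `J` from `x` in `H = G - e`.  Let `T : u → v` be a path with inner vertices
of degree two, `t = H.dist x`, `near v` iff reachable and `t v ≤ J`.

Case `e ∉ T.edges`: `T` is a walk `τ` of `H` (`toDeleteEdges`/`transfer`).  If neither end is near: `τ` itself.  By symmetry (`τ.reverse`)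
let `u` be near and (`v` not near or `t u ≤ t v`).
(a) `J < t u + |τ|`: `plc_home` for `u` (length `≤ 33 K (J - t u) ≤ 33 K |τ|`), `τ`, and, if `v` is near, `plc_home` for `v`
(`J - t v ≤ J - t u ≤ |τ|`).
(b) `t u + |τ| ≤ J`: then `v` is near (`t v ≤ t u + |τ|`), `opn_thread` gives `t v = t u + |τ|`, and `plc_line`.

Case `e ∈ T.edges`: `T = τ₁, e, τ₂` with `τ₁ : u → x`, `τ₂ : y → v` in `H` (or the same with `u, v` exchanged).  From `plc u` to `y`: if
`u` is near: `plc_y` (`t u ≤ |τ₁|`), otherwise `plc u = u`, `τ₁` and `P` (`m - 1 ≤ 32 K J < 32 K (t u) ≤ 32 K |τ₁|`, where `t u > J` since `u`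
is reachable).  From `y` to `v`: `τ₂`.  From `v` to `plc v`, if `v` is near: `plc_home`: `≤ 33 K J`, and `|τ₂| ≥ m - 1 - J ≥ J` by `opn_far`
(a shortest walk `x → v` followed by `τ₂.reverse`).  The total is at most `100 K |T|`.
-/

open Set
open Pool.Agent.Helper83.OP

namespace Pool.Agent.Helper95.UP

section

variable {V : Type} [Finite V] {G : SimpleGraph V} {K n0 m : ℕ} {x y : V}
  {P : (G.deleteEdges {s(x, y)}).Walk x y}

omit [Finite V] in
private theorem pm_split {u v : V} (W : G.Walk u v) (hW : W.edges.Nodup)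
    (he : s(x, y) ∈ W.edges) :
    (∃ (τ1 : (G.deleteEdges {s(x, y)}).Walk u x) (τ2 : (G.deleteEdges {s(x, y)}).Walk y v),
      τ1.length + 1 + τ2.length = W.length) ∨
    (∃ (τ1 : (G.deleteEdges {s(x, y)}).Walk u y) (τ2 : (G.deleteEdges {s(x, y)}).Walk x v),
      τ1.length + 1 + τ2.length = W.length) := by
  induction W with
  | nil => simp at he
  | @cons u w v h W' ih =>
    rw [SimpleGraph.Walk.edges_cons, List.nodup_cons] at hW
    by_cases heq : s(u, w) = s(x, y)
    · have hP : ∀ f ∈ W'.edges, f ∈ (G.deleteEdges {s(x, y)}).edgeSet := by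
        intro f hf
        rw [SimpleGraph.edgeSet_deleteEdges]
        refine ⟨SimpleGraph.Walk.edges_subset_edgeSet W' hf, ?_⟩
        rintro rfl
        rw [heq] at hW
        exact hW.1 hf
      rcases Sym2.eq_iff.1 heq with ⟨rfl, rfl⟩ | ⟨rfl, rfl⟩
      · left
        refine ⟨SimpleGraph.Walk.nil, W'.transfer _ hP, ?_⟩
        rw [SimpleGraph.Walk.length_transfer, SimpleGraph.Walk.length_cons,
          SimpleGraph.Walk.length_nil]
        omega
      · right
        refine ⟨SimpleGraph.Walk.nil, W'.transfer _ hP, ?_⟩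
        rw [SimpleGraph.Walk.length_transfer, SimpleGraph.Walk.length_cons,
          SimpleGraph.Walk.length_nil]
        omega
    · have he' : s(x, y) ∈ W'.edges := by
        rw [SimpleGraph.Walk.edges_cons, List.mem_cons] at he
        exact he.resolve_left (Ne.symm heq)
      have hadj : (G.deleteEdges {s(x, y)}).Adj u w := by
        rw [SimpleGraph.deleteEdges_adj]
        exact ⟨h, heq⟩
      rcases ih hW.2 he' with ⟨τ1, τ2, h1⟩ | ⟨τ1, τ2, h1⟩
      · left
        refine ⟨SimpleGraph.Walk.cons hadj τ1, τ2, ?_⟩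
        rw [SimpleGraph.Walk.length_cons, SimpleGraph.Walk.length_cons]
        omega
      · right
        refine ⟨SimpleGraph.Walk.cons hadj τ1, τ2, ?_⟩
        rw [SimpleGraph.Walk.length_cons, SimpleGraph.Walk.length_cons]
        omega

/-- the case of a near end `u` which is not farther than `v` -/
private theorem pm_near (hO : Opn G K n0 m x y P) {J : ℕ} (hK : 1 ≤ K) (hJ1 : 1 ≤ J)
    (hJ : 16 * K * J ≤ m) (hm : m < 16 * K * (J + 1)) {u v : V}
    (τ : (G.deleteEdges {s(x, y)}).Walk u v) (hτ : τ.IsPath) (h1 : 1 ≤ τ.length)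
    (hin : ∀ z ∈ τ.support, z ≠ u → z ≠ v → deg G z = 2)
    (hu : (G.deleteEdges {s(x, y)}).Reachable x u)
    (huJ : (G.deleteEdges {s(x, y)}).dist x u ≤ J)
    (huv : (G.deleteEdges {s(x, y)}).dist x v ≤ J →
      (G.deleteEdges {s(x, y)}).dist x u ≤ (G.deleteEdges {s(x, y)}).dist x v) :
    ∃ p : (G.deleteEdges {s(x, y)}).Walk (plc G J m x y P u) (plc G J m x y P v),
      p.length ≤ 100 * K * τ.length := by
  have hv : (G.deleteEdges {s(x, y)}).Reachable x v := hu.trans τ.reachable
  have hdv : (G.deleteEdges {s(x, y)}).dist x v ≤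
      (G.deleteEdges {s(x, y)}).dist x u + τ.length := by
    obtain ⟨p, hp⟩ := hu.exists_walk_length_eq_dist
    have := SimpleGraph.dist_le (p.append τ)
    rw [SimpleGraph.Walk.length_append] at this
    omega
  by_cases hcase : (G.deleteEdges {s(x, y)}).dist x u + τ.length ≤ J
  · have hvJ : (G.deleteEdges {s(x, y)}).dist x v ≤ J := hdv.trans hcase
    have h2 := opn_thread hO hK hJ τ hτ h1 hin hu (huv hvJ) hcase
    obtain ⟨p, hp⟩ := plc_line hO hK hJ1 hJ hm τ hu h2 hvJ
    refine ⟨p, hp.trans ?_⟩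
    nlinarith [Nat.mul_le_mul hK h1]
  · push Not at hcase
    obtain ⟨p, hp⟩ := plc_home hO hK hJ1 hJ hm hu huJ
    have hp' : p.length ≤ 33 * K * τ.length :=
      hp.trans (Nat.mul_le_mul_left _ (by omega))
    by_cases hvJ : (G.deleteEdges {s(x, y)}).dist x v ≤ J
    · obtain ⟨p2, hp2⟩ := plc_home hO hK hJ1 hJ hm hv hvJ
      have hp2' : p2.length ≤ 33 * K * τ.length :=
        hp2.trans (Nat.mul_le_mul_left _ (by have := huv hvJ; omega))
      refine ⟨(p.append τ).append p2.reverse, ?_⟩
      rw [SimpleGraph.Walk.length_append, SimpleGraph.Walk.length_append,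
        SimpleGraph.Walk.length_reverse]
      nlinarith [Nat.mul_le_mul hK h1, Nat.mul_le_mul_right τ.length hK]
    · have hpv : plc G J m x y P v = v := plc_far (fun h => hvJ h.2)
      rw [hpv]
      refine ⟨p.append τ, ?_⟩
      rw [SimpleGraph.Walk.length_append]
      nlinarith [Nat.mul_le_mul hK h1, Nat.mul_le_mul_right τ.length hK]

/-- the case of an edge `xy` on the segment -/
private theorem pm_edge (hO : Opn G K n0 m x y P) {J : ℕ} (hK : 1 ≤ K) (hJ1 : 1 ≤ J)
    (hJ : 16 * K * J ≤ m) (hm : m < 16 * K * (J + 1)) {u v : V}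
    (τ1 : (G.deleteEdges {s(x, y)}).Walk u x) (τ2 : (G.deleteEdges {s(x, y)}).Walk y v) :
    ∃ p : (G.deleteEdges {s(x, y)}).Walk (plc G J m x y P u) (plc G J m x y P v),
      p.length ≤ 100 * K * (τ1.length + 1 + τ2.length) := by
  have hu : (G.deleteEdges {s(x, y)}).Reachable x u := τ1.reverse.reachable
  have hdu : (G.deleteEdges {s(x, y)}).dist x u ≤ τ1.length := by
    have := SimpleGraph.dist_le τ1.reverse
    rwa [SimpleGraph.Walk.length_reverse] at this
  have hPl : P.length ≤ 32 * K * J := by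
    have h2 := hO.len
    have h3 : 16 * K * (J + 1) ≤ 32 * K * J := by nlinarith [Nat.mul_le_mul hK hJ1]
    omega
  -- from the place of `u` to `y`
  have hfirst : ∃ p : (G.deleteEdges {s(x, y)}).Walk (plc G J m x y P u) y,
      p.length ≤ 66 * K * τ1.length + 1 := by
    by_cases huJ : (G.deleteEdges {s(x, y)}).dist x u ≤ J
    · obtain ⟨p, hp⟩ := plc_y hO hK hJ1 hJ hm hu huJ
      exact ⟨p, hp.trans (by have := Nat.mul_le_mul_left (66 * K) hdu; omega)⟩
    · rw [plc_far (fun h => huJ h.2)]
      refine ⟨τ1.append P, ?_⟩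
      rw [SimpleGraph.Walk.length_append]
      push Not at huJ
      have h3 : 32 * K * J ≤ 32 * K * τ1.length := Nat.mul_le_mul_left _ (by omega)
      nlinarith [Nat.mul_le_mul_right τ1.length hK]
  obtain ⟨p, hp⟩ := hfirst
  by_cases hvn : (G.deleteEdges {s(x, y)}).Reachable x v ∧
      (G.deleteEdges {s(x, y)}).dist x v ≤ J
  · obtain ⟨hv, hvJ⟩ := hvn
    obtain ⟨p2, hp2⟩ := plc_home hO hK hJ1 hJ hm hv hvJ
    obtain ⟨q, hq⟩ := hv.exists_walk_length_eq_dist
    have h4 := opn_far hO (q.append τ2.reverse)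
    rw [SimpleGraph.Walk.length_append, SimpleGraph.Walk.length_reverse] at h4
    have h5 : 16 * J ≤ m := by nlinarith [Nat.mul_le_mul_right J hK]
    have h6 : J ≤ τ2.length := by omega
    have h7 : p2.length ≤ 33 * K * τ2.length :=
      hp2.trans (Nat.mul_le_mul_left _ (by omega))
    refine ⟨(p.append τ2).append p2.reverse, ?_⟩
    rw [SimpleGraph.Walk.length_append, SimpleGraph.Walk.length_append,
      SimpleGraph.Walk.length_reverse]
    nlinarith [Nat.mul_le_mul_right τ1.length hK, Nat.mul_le_mul_right τ2.length hK]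
  · rw [plc_far hvn]
    refine ⟨p.append τ2, ?_⟩
    rw [SimpleGraph.Walk.length_append]
    nlinarith [Nat.mul_le_mul_right τ1.length hK, Nat.mul_le_mul_right τ2.length hK]

/-- the opened cycle is a cycle -/
private theorem pm_len (hO : Opn G K n0 m x y P)
    (hg : ∀ (x : V) (C : G.Walk x x), C.IsCycle → 64 * K ≤ C.length) : 64 * K ≤ m := by
  have hC : (SimpleGraph.Walk.cons hO.adj
      (P.reverse.mapLe (SimpleGraph.deleteEdges_le _))).IsCycle := by
    rw [SimpleGraph.Walk.cons_isCycle_iff]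
    refine ⟨(SimpleGraph.Walk.isPath_mapLe _).2 hO.path.reverse, ?_⟩
    intro h
    rw [SimpleGraph.Walk.edges_mapLe_eq_edges] at h
    have h2 := SimpleGraph.Walk.edges_subset_edgeSet P.reverse h
    rw [SimpleGraph.edgeSet_deleteEdges] at h2
    exact h2.2 rfl
  have h1 := hg _ _ hC
  rw [SimpleGraph.Walk.length_cons, SimpleGraph.Walk.length_map,
    SimpleGraph.Walk.length_reverse, hO.len] at h1
  exact h1

end

theorem places (K : ℕ) (hK : 1 ≤ K) (V : Type) [Finite V] (G : SimpleGraph V) (n0 : ℕ)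
    (hC : ∃ (x : V) (C : G.Walk x x), C.IsCycle ∧ vol G (ball G x (C.length / K)) ≤ n0)
    (hg : ∀ (x : V) (C : G.Walk x x), C.IsCycle → 64 * K ≤ C.length) :
    ∃ (e : Sym2 V) (x : V) (S : Set V) (pl : V → V), e ∈ G.edgeSet ∧ x ∈ e ∧ x ∈ S ∧
      (∀ v, v ∉ S → pl v = v) ∧ vol G S ≤ n0 ∧
      (∀ w ∈ S, ∃ p : G.Walk x w, ∀ z ∈ p.support, z ∈ S) ∧
      ∀ (u v : V) (T : G.Walk u v), T.IsPath → u ≠ v →
        (∀ z ∈ T.support, z ≠ u → z ≠ v → deg G z = 2) →
        ∃ p : (G.deleteEdges {e}).Walk (pl u) (pl v), p.length ≤ 100 * K * T.length := by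
  classical
  obtain ⟨m, x, y, P, hO⟩ := exists_opn G K n0 hC
  have hm64 := pm_len hO hg
  obtain ⟨J, hJd⟩ : ∃ J, J = m / (16 * K) := ⟨_, rfl⟩
  have hK16 : 0 < 16 * K := by omega
  have hJ : 16 * K * J ≤ m := by rw [hJd]; exact Nat.mul_div_le _ _
  have hm : m < 16 * K * (J + 1) := by rw [hJd]; exact Nat.lt_mul_div_succ _ hK16
  have hJ1 : 1 ≤ J := by
    by_contra hcon
    have : J = 0 := by omega
    subst this
    simp only [zero_add, mul_one] at hm
    omega
  refine ⟨s(x, y), x, {v | (G.deleteEdges {s(x, y)}).Reachable x v ∧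
    (G.deleteEdges {s(x, y)}).dist x v ≤ J}, plc G J m x y P, hO.adj, Sym2.mem_mk_left _ _,
    ⟨SimpleGraph.Reachable.refl _, by rw [SimpleGraph.dist_self]; omega⟩, ?_, ?_, ?_, ?_⟩
  · intro v hv
    exact plc_far hv
  · refine (vol_mono G ?_).trans hO.adm
    rintro v ⟨hv, hvJ⟩
    obtain ⟨p, hp⟩ := hv.exists_walk_length_eq_dist
    refine ball_mono G x (?_ : J ≤ m / K) ⟨p.mapLe (SimpleGraph.deleteEdges_le _), ?_⟩
    · have := opn_arith hK hJ
      omega
    · rw [SimpleGraph.Walk.length_map]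
      omega
  · rintro w ⟨hw, hwJ⟩
    obtain ⟨p, hp⟩ := hw.exists_walk_length_eq_dist
    refine ⟨p.mapLe (SimpleGraph.deleteEdges_le _), fun z hz => ?_⟩
    rw [SimpleGraph.Walk.support_mapLe_eq_support] at hz
    refine ⟨(p.takeUntil z hz).reachable, ?_⟩
    have h1 := SimpleGraph.dist_le (p.takeUntil z hz)
    have h2 := p.length_takeUntil_le_length hz
    omega
  · intro u v T hT huv hin
    by_cases he : s(x, y) ∈ T.edges
    · rcases pm_split T hT.isTrail.edges_nodup he with ⟨τ1, τ2, h1⟩ | ⟨τ1, τ2, h1⟩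
      · obtain ⟨p, hp⟩ := pm_edge hO hK hJ1 hJ hm τ1 τ2
        exact ⟨p, by rw [← h1]; exact hp⟩
      · obtain ⟨p, hp⟩ := pm_edge hO hK hJ1 hJ hm τ2.reverse τ1.reverse
        refine ⟨p.reverse, ?_⟩
        rw [SimpleGraph.Walk.length_reverse, ← h1]
        rw [SimpleGraph.Walk.length_reverse, SimpleGraph.Walk.length_reverse] at hp
        calc p.length ≤ 100 * K * (τ2.length + 1 + τ1.length) := hp
          _ = 100 * K * (τ1.length + 1 + τ2.length) := by ring
    · have hP : ∀ f ∈ T.edges, f ∈ (G.deleteEdges {s(x, y)}).edgeSet := by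
        intro f hf
        rw [SimpleGraph.edgeSet_deleteEdges]
        refine ⟨SimpleGraph.Walk.edges_subset_edgeSet T hf, ?_⟩
        rintro rfl
        exact he hf
      obtain ⟨τ, hτd⟩ : ∃ τ, τ = T.transfer (G.deleteEdges {s(x, y)}) hP := ⟨_, rfl⟩
      have hτ : τ.IsPath := by rw [hτd]; exact hT.transfer hP
      have hτl : τ.length = T.length := by rw [hτd, SimpleGraph.Walk.length_transfer]
      have hτs : τ.support = T.support := by rw [hτd, SimpleGraph.Walk.support_transfer]
      have h1 : 1 ≤ τ.length := by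
        rcases Nat.eq_zero_or_pos τ.length with h | h
        · exact absurd (SimpleGraph.Walk.eq_of_length_eq_zero h) huv
        · exact h
      by_cases hu : (G.deleteEdges {s(x, y)}).Reachable x u
      · have hv : (G.deleteEdges {s(x, y)}).Reachable x v := hu.trans τ.reachable
        by_cases hle : (G.deleteEdges {s(x, y)}).dist x u ≤
            (G.deleteEdges {s(x, y)}).dist x v
        · by_cases huJ : (G.deleteEdges {s(x, y)}).dist x u ≤ J
          · obtain ⟨p, hp⟩ := pm_near hO hK hJ1 hJ hm τ hτ h1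
              (by rw [hτs]; exact hin) hu huJ (fun _ => hle)
            exact ⟨p, by rw [← hτl]; exact hp⟩
          · rw [plc_far (fun h => huJ h.2), plc_far (fun h => huJ (hle.trans h.2))]
            refine ⟨τ, ?_⟩
            rw [hτl]
            nlinarith [Nat.mul_le_mul_right T.length hK]
        · push Not at hle
          by_cases hvJ : (G.deleteEdges {s(x, y)}).dist x v ≤ J
          · obtain ⟨p, hp⟩ := pm_near hO hK hJ1 hJ hm τ.reverse hτ.reverse
              (by rw [SimpleGraph.Walk.length_reverse]; exact h1)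
              (by
                rw [SimpleGraph.Walk.support_reverse, hτs]
                intro z hz h2 h3
                exact hin z (List.mem_reverse.1 hz) h3 h2) hv hvJ (fun _ => hle.le)
            refine ⟨p.reverse, ?_⟩
            rw [SimpleGraph.Walk.length_reverse, ← hτl]
            rw [SimpleGraph.Walk.length_reverse] at hp
            exact hp
          · rw [plc_far (fun h => hvJ (hle.le.trans h.2)), plc_far (fun h => hvJ h.2)]
            refine ⟨τ, ?_⟩
            rw [hτl]
            nlinarith [Nat.mul_le_mul_right T.length hK]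
      · rw [plc_far (fun h => hu h.1), plc_far (fun h => hu (h.1.trans τ.reverse.reachable))]
        refine ⟨τ, ?_⟩
        rw [hτl]
        nlinarith [Nat.mul_le_mul_right T.length hK]

end Pool.Agent.Helper95.UP
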