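import Pool.Agent.Helper95.UP.PLTree

/-!
# UP-PL2: the new places

`H = G - xy`, `t v = H.dist x v`, `16 K J ≤ m < 16 K (J + 1)`, `1 ≤ J`.  A vertex `v` with `t v ≤ J` (reachable from `x` in `H`) goes to
* the vertex at depth `2 t - J` of a shortest path `x → v`, if `J ≤ 2 t`,
* the vertex number `(m - 1) (J - 2 t) / J` of `P` (counted from `x`), if `2 t < J`;
all other vertices stay.  `pth` is the chosen shortest path (`Reachable.exists_walk_length_eq_dist`,
`Walk.isPath_of_length_eq_dist`).  Since `m < 16 K (J + 1) ≤ 32 K J`: `m - 1 ≤ 32 K J`.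

* `plc_far`: not near → stays; `plc_sub`: moved vertices are in `ball G x J ⊆ ball G x (m / K)`.
* `plc_home` (walk from `plc v` to `v`): `J ≤ 2 t`: rest of the shortest path, length `J - t`;
  `2 t < J`: back along `P` (at most `(m-1)(J-2t)/J ≤ 32 K (J - 2 t)` steps), then the shortest path (`t ≤ J - t` steps).
* `plc_y` (walk from `plc v` to `y`): `J ≤ 2 t`: `(2 t - J) + (m - 1) ≤ 2 t + 64 K t`; `2 t < J`: the rest of `P`, at most
  `(m - 1) - ((m-1)(J-2t)/J) ≤ (m-1) 2 t / J + 1 ≤ 64 K t + 1`.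
* `plc_line`: `τ : u → v` with `t v = t u + τ.length ≤ J`.  The chosen shortest path to `u` followed by `τ` is a path of length
  `t v` (`Walk.isPath_of_length_eq_dist`), hence equal to the chosen shortest path to `v` (`opn_unique`).  Cases: both
  `J ≤ 2 t`: difference of the depths `2 τ.length`; only `v`: `(m-1)(J - 2 t u)/J + (2 t v - J)` with `J - 2 t u ≤ 2 τ.length` and
  `2 t v - J ≤ 2 τ.length`; none: difference of the two indices on `P`, at most `(m-1) 2 τ.length / J + 1`.
-/

open Set
open Pool.Agent.Helper83.OP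

namespace Pool.Agent.Helper95.UP

variable {V : Type} [Finite V] {G : SimpleGraph V} {K n0 m : ℕ} {x y : V}

/-- the chosen shortest path from `x` to `v` in `G - xy` -/
noncomputable def pth (G : SimpleGraph V) (x y v : V)
    (h : (G.deleteEdges {s(x, y)}).Reachable x v) : (G.deleteEdges {s(x, y)}).Walk x v :=
  h.exists_walk_length_eq_dist.choose

open Classical in
/-- the new place of `v` -/
noncomputable def plc (G : SimpleGraph V) (J m : ℕ) (x y : V)
    (P : (G.deleteEdges {s(x, y)}).Walk x y) (v : V) : V :=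
  if h : (G.deleteEdges {s(x, y)}).Reachable x v ∧ (G.deleteEdges {s(x, y)}).dist x v ≤ J then
    if J ≤ 2 * (G.deleteEdges {s(x, y)}).dist x v then
      (pth G x y v h.1).getVert (2 * (G.deleteEdges {s(x, y)}).dist x v - J)
    else P.getVert ((m - 1) * (J - 2 * (G.deleteEdges {s(x, y)}).dist x v) / J)
  else v

variable {P : (G.deleteEdges {s(x, y)}).Walk x y}

/-- part of a walk between the indices `i` and `i + k` -/
private theorem walk_part {H : SimpleGraph V} {a b : V} (W : H.Walk a b) (i k : ℕ) :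
    ∃ p : H.Walk (W.getVert i) (W.getVert (i + k)), p.length ≤ k := by
  induction k with
  | zero => exact ⟨SimpleGraph.Walk.nil, by simp⟩
  | succ k ih =>
    obtain ⟨p, hp⟩ := ih
    by_cases h : i + k < W.length
    · refine ⟨p.concat (W.adj_getVert_succ h), ?_⟩
      rw [SimpleGraph.Walk.length_concat]
      omega
    · have e : W.getVert (i + (k + 1)) = W.getVert (i + k) := by
        rw [W.getVert_of_length_le (by omega), W.getVert_of_length_le (by omega)]
      rw [e]
      exact ⟨p, by omega⟩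

private theorem walk_part_le {H : SimpleGraph V} {a b : V} (W : H.Walk a b) {i j : ℕ}
    (h : i ≤ j) : ∃ p : H.Walk (W.getVert i) (W.getVert j), p.length ≤ j - i := by
  obtain ⟨k, rfl⟩ := Nat.exists_eq_add_of_le h
  obtain ⟨p, hp⟩ := walk_part W i k
  exact ⟨p, by omega⟩

/-- the walk from the vertex number `i` back to the start -/
private theorem walk_back {H : SimpleGraph V} {a b : V} (W : H.Walk a b) (i : ℕ) :
    ∃ p : H.Walk (W.getVert i) a, p.length ≤ i := by
  obtain ⟨p, hp⟩ := walk_part_le W (Nat.zero_le i)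
  refine ⟨(p.copy W.getVert_zero rfl).reverse, ?_⟩
  rw [SimpleGraph.Walk.length_reverse, SimpleGraph.Walk.length_copy]
  omega

/-- the walk from the vertex number `i` to the end -/
private theorem walk_end {H : SimpleGraph V} {a b : V} (W : H.Walk a b) {i : ℕ}
    (h : i ≤ W.length) : ∃ p : H.Walk (W.getVert i) b, p.length ≤ W.length - i := by
  obtain ⟨p, hp⟩ := walk_part_le W h
  refine ⟨p.copy rfl W.getVert_length, ?_⟩
  rw [SimpleGraph.Walk.length_copy]
  exact hp

private theorem pth_length {v : V} (h : (G.deleteEdges {s(x, y)}).Reachable x v) :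
    (pth G x y v h).length = (G.deleteEdges {s(x, y)}).dist x v :=
  h.exists_walk_length_eq_dist.choose_spec

private theorem m_le {J : ℕ} (hJ1 : 1 ≤ J) (hm : m < 16 * K * (J + 1)) :
    m - 1 ≤ 32 * K * J := by
  have h : K * 1 ≤ K * J := Nat.mul_le_mul_left K hJ1
  have e : 16 * K * (J + 1) = 16 * (K * J) + 16 * (K * 1) := by ring
  have e' : 32 * K * J = 32 * (K * J) := by ring
  omega

private theorem idx_le {J r s : ℕ} (hJ1 : 1 ≤ J) (hm : m < 16 * K * (J + 1)) (h : s ≤ r) :
    (m - 1) * r / J ≤ (m - 1) * s / J + 32 * K * (r - s) := by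
  have h1 := m_le hJ1 hm
  have h2 : (m - 1) * r ≤ (m - 1) * s + J * (32 * K * (r - s)) := by
    obtain ⟨c, rfl⟩ := Nat.exists_eq_add_of_le h
    have e : s + c - s = c := by omega
    rw [e]
    have h3 : (m - 1) * c ≤ (32 * K * J) * c := Nat.mul_le_mul_right c h1
    calc (m - 1) * (s + c) = (m - 1) * s + (m - 1) * c := by ring
      _ ≤ (m - 1) * s + (32 * K * J) * c := by omega
      _ = (m - 1) * s + J * (32 * K * c) := by ring
  calc (m - 1) * r / J ≤ ((m - 1) * s + J * (32 * K * (r - s))) / J := Nat.div_le_div_right h2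
    _ = (m - 1) * s / J + 32 * K * (r - s) := Nat.add_mul_div_left _ _ (by omega)

private theorem idx_le0 {J r : ℕ} (hJ1 : 1 ≤ J) (hm : m < 16 * K * (J + 1)) :
    (m - 1) * r / J ≤ 32 * K * r := by
  have := idx_le (m := m) (K := K) hJ1 hm (Nat.zero_le r)
  simpa using this

private theorem idx_full {J s : ℕ} (hJ1 : 1 ≤ J) (hm : m < 16 * K * (J + 1)) (h : s ≤ J) :
    m - 1 ≤ (m - 1) * s / J + 32 * K * (J - s) := by
  have := idx_le (m := m) (K := K) hJ1 hm h
  rwa [Nat.mul_div_cancel _ (by omega : 0 < J)] at this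

private theorem plc_hi {J : ℕ} {v : V} (hr : (G.deleteEdges {s(x, y)}).Reachable x v)
    (ht : (G.deleteEdges {s(x, y)}).dist x v ≤ J)
    (h2 : J ≤ 2 * (G.deleteEdges {s(x, y)}).dist x v) :
    plc G J m x y P v =
      (pth G x y v hr).getVert (2 * (G.deleteEdges {s(x, y)}).dist x v - J) := by
  unfold plc
  rw [dif_pos ⟨hr, ht⟩, if_pos h2]

private theorem plc_lo {J : ℕ} {v : V} (hr : (G.deleteEdges {s(x, y)}).Reachable x v)
    (ht : (G.deleteEdges {s(x, y)}).dist x v ≤ J)
    (h2 : ¬ J ≤ 2 * (G.deleteEdges {s(x, y)}).dist x v) :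
    plc G J m x y P v =
      P.getVert ((m - 1) * (J - 2 * (G.deleteEdges {s(x, y)}).dist x v) / J) := by
  unfold plc
  rw [dif_pos ⟨hr, ht⟩, if_neg h2]

theorem plc_far {J : ℕ} {v : V} (h : ¬ ((G.deleteEdges {s(x, y)}).Reachable x v ∧
    (G.deleteEdges {s(x, y)}).dist x v ≤ J)) : plc G J m x y P v = v := by
  unfold plc
  rw [dif_neg h]

theorem plc_sub (hO : Opn G K n0 m x y P) {J : ℕ} (hK : 1 ≤ K) (hJ : 16 * K * J ≤ m) :
    vol G {v | plc G J m x y P v ≠ v} ≤ n0 := by
  refine le_trans (vol_mono G ?_) hO.adm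
  intro v hv
  have hv' : plc G J m x y P v ≠ v := hv
  by_cases h : (G.deleteEdges {s(x, y)}).Reachable x v ∧ (G.deleteEdges {s(x, y)}).dist x v ≤ J
  · obtain ⟨h1, h2⟩ := h
    obtain ⟨p, hp⟩ := h1.exists_walk_length_eq_dist
    have hle : J ≤ m / K := by
      rw [Nat.le_div_iff_mul_le (by omega)]
      have e : 16 * K * J = 16 * (J * K) := by ring
      omega
    refine ⟨p.mapLe (SimpleGraph.deleteEdges_le _), ?_⟩
    rw [SimpleGraph.Walk.length_map]
    omega
  · exact absurd (plc_far h) hv'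

theorem plc_home (hO : Opn G K n0 m x y P) {J : ℕ} (hK : 1 ≤ K) (hJ1 : 1 ≤ J)
    (hJ : 16 * K * J ≤ m) (hm : m < 16 * K * (J + 1)) {v : V}
    (hr : (G.deleteEdges {s(x, y)}).Reachable x v)
    (ht : (G.deleteEdges {s(x, y)}).dist x v ≤ J) :
    ∃ p : (G.deleteEdges {s(x, y)}).Walk (plc G J m x y P v) v,
      p.length ≤ 33 * K * (J - (G.deleteEdges {s(x, y)}).dist x v) := by
  by_cases h2 : J ≤ 2 * (G.deleteEdges {s(x, y)}).dist x v
  · rw [plc_hi hr ht h2]
    obtain ⟨p, hp⟩ := walk_end (pth G x y v hr)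
      (i := 2 * (G.deleteEdges {s(x, y)}).dist x v - J) (by rw [pth_length]; omega)
    refine ⟨p, ?_⟩
    rw [pth_length] at hp
    generalize (G.deleteEdges {s(x, y)}).dist x v = t at *
    have h3 : 1 * (J - t) ≤ 33 * K * (J - t) := Nat.mul_le_mul_right _ (by omega)
    omega
  · rw [plc_lo hr ht h2]
    obtain ⟨p, hp⟩ := walk_back P
      ((m - 1) * (J - 2 * (G.deleteEdges {s(x, y)}).dist x v) / J)
    refine ⟨p.append (pth G x y v hr), ?_⟩
    rw [SimpleGraph.Walk.length_append, pth_length]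
    generalize (G.deleteEdges {s(x, y)}).dist x v = t at *
    have h3 := le_trans hp (idx_le0 (m := m) (K := K) (r := J - 2 * t) hJ1 hm)
    obtain ⟨c, hc⟩ : ∃ c, J = 2 * t + c := ⟨J - 2 * t, by omega⟩
    have e1 : J - 2 * t = c := by omega
    have e2 : J - t = t + c := by omega
    generalize p.length = l at *
    clear hp
    rw [e1] at h3
    rw [e2]
    have h4 : 1 * t ≤ K * t := Nat.mul_le_mul_right _ hK
    have e3 : 33 * K * (t + c) = 33 * (K * t) + 33 * (K * c) := by ring
    have e4 : 32 * K * c = 32 * (K * c) := by ring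
    omega

theorem plc_y (hO : Opn G K n0 m x y P) {J : ℕ} (hK : 1 ≤ K) (hJ1 : 1 ≤ J)
    (hJ : 16 * K * J ≤ m) (hm : m < 16 * K * (J + 1)) {v : V}
    (hr : (G.deleteEdges {s(x, y)}).Reachable x v)
    (ht : (G.deleteEdges {s(x, y)}).dist x v ≤ J) :
    ∃ p : (G.deleteEdges {s(x, y)}).Walk (plc G J m x y P v) y,
      p.length ≤ 66 * K * (G.deleteEdges {s(x, y)}).dist x v + 1 := by
  have hP := hO.len
  by_cases h2 : J ≤ 2 * (G.deleteEdges {s(x, y)}).dist x v
  · rw [plc_hi hr ht h2]
    obtain ⟨p, hp⟩ := walk_back (pth G x y v hr)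
      (2 * (G.deleteEdges {s(x, y)}).dist x v - J)
    refine ⟨p.append P, ?_⟩
    rw [SimpleGraph.Walk.length_append]
    generalize (G.deleteEdges {s(x, y)}).dist x v = t at *
    have h3 := m_le hJ1 hm
    have h4 : 1 * t ≤ K * t := Nat.mul_le_mul_right _ hK
    have h5 : K * J ≤ K * (2 * t) := Nat.mul_le_mul_left _ h2
    have e3 : 66 * K * t = 66 * (K * t) := by ring
    have e4 : 32 * K * J = 32 * (K * J) := by ring
    have e5 : K * (2 * t) = 2 * (K * t) := by ring
    omega
  · rw [plc_lo hr ht h2]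
    have h6 := idx_full (m := m) (K := K)
      (s := J - 2 * (G.deleteEdges {s(x, y)}).dist x v) hJ1 hm (by omega)
    have h7 : (m - 1) * (J - 2 * (G.deleteEdges {s(x, y)}).dist x v) / J ≤ m - 1 := by
      refine Nat.div_le_of_le_mul ?_
      rw [mul_comm]
      exact Nat.mul_le_mul_right _ (by omega)
    obtain ⟨p, hp⟩ := walk_end P
      (i := (m - 1) * (J - 2 * (G.deleteEdges {s(x, y)}).dist x v) / J) (by omega)
    refine ⟨p, ?_⟩
    generalize (G.deleteEdges {s(x, y)}).dist x v = t at *
    have e1 : J - (J - 2 * t) = 2 * t := by omega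
    rw [e1] at h6
    have e2 : 32 * K * (2 * t) = 64 * (K * t) := by ring
    have e3 : 66 * K * t = 66 * (K * t) := by ring
    omega

theorem plc_line (hO : Opn G K n0 m x y P) {J : ℕ} (hK : 1 ≤ K) (hJ1 : 1 ≤ J)
    (hJ : 16 * K * J ≤ m) (hm : m < 16 * K * (J + 1)) {u v : V}
    (τ : (G.deleteEdges {s(x, y)}).Walk u v)
    (hu : (G.deleteEdges {s(x, y)}).Reachable x u)
    (huv : (G.deleteEdges {s(x, y)}).dist x v =
      (G.deleteEdges {s(x, y)}).dist x u + τ.length)
    (ht : (G.deleteEdges {s(x, y)}).dist x v ≤ J) :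
    ∃ p : (G.deleteEdges {s(x, y)}).Walk (plc G J m x y P u) (plc G J m x y P v),
      p.length ≤ 66 * K * τ.length + 1 := by
  have hv : (G.deleteEdges {s(x, y)}).Reachable x v := hu.trans τ.reachable
  have htu : (G.deleteEdges {s(x, y)}).dist x u ≤ J := by omega
  have hlA := pth_length (G := G) (x := x) (y := y) hu
  have hlB := pth_length (G := G) (x := x) (y := y) hv
  have hAB : (pth G x y u hu).append τ = pth G x y v hv := by
    have hl : ((pth G x y u hu).append τ).length = (G.deleteEdges {s(x, y)}).dist x v := by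
      rw [SimpleGraph.Walk.length_append, hlA, huv]
    exact opn_unique hO hK hJ _ _ (SimpleGraph.Walk.isPath_of_length_eq_dist _ hl)
      (SimpleGraph.Walk.isPath_of_length_eq_dist _ hlB) (by omega) (by omega)
  by_cases h2 : J ≤ 2 * (G.deleteEdges {s(x, y)}).dist x v
  · by_cases h1 : J ≤ 2 * (G.deleteEdges {s(x, y)}).dist x u
    · rw [plc_hi hu htu h1, plc_hi hv ht h2]
      have e : (pth G x y u hu).getVert (2 * (G.deleteEdges {s(x, y)}).dist x u - J) =
          (pth G x y v hv).getVert (2 * (G.deleteEdges {s(x, y)}).dist x u - J) := by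
        rw [← hAB, SimpleGraph.Walk.getVert_append]
        split_ifs with h
        · rfl
        · have e1 : 2 * (G.deleteEdges {s(x, y)}).dist x u - J = (pth G x y u hu).length := by
            omega
          rw [e1]
          simp
      rw [e]
      obtain ⟨p, hp⟩ := walk_part_le (pth G x y v hv)
        (i := 2 * (G.deleteEdges {s(x, y)}).dist x u - J)
        (j := 2 * (G.deleteEdges {s(x, y)}).dist x v - J) (by omega)
      refine ⟨p, ?_⟩
      have h4 : 1 * τ.length ≤ K * τ.length := Nat.mul_le_mul_right _ hK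
      have e3 : 66 * K * τ.length = 66 * (K * τ.length) := by ring
      omega
    · rw [plc_lo hu htu h1, plc_hi hv ht h2]
      obtain ⟨p, hp⟩ := walk_back P
        ((m - 1) * (J - 2 * (G.deleteEdges {s(x, y)}).dist x u) / J)
      obtain ⟨q, hq⟩ := walk_back (pth G x y v hv)
        (2 * (G.deleteEdges {s(x, y)}).dist x v - J)
      refine ⟨p.append q.reverse, ?_⟩
      rw [SimpleGraph.Walk.length_append, SimpleGraph.Walk.length_reverse]
      have h3 := idx_le0 (m := m) (K := K)
        (r := J - 2 * (G.deleteEdges {s(x, y)}).dist x u) hJ1 hm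
      have h4 : 1 * τ.length ≤ K * τ.length := Nat.mul_le_mul_right _ hK
      have h5 : K * (J - 2 * (G.deleteEdges {s(x, y)}).dist x u) ≤ K * (2 * τ.length) :=
        Nat.mul_le_mul_left _ (by omega)
      have e3 : 66 * K * τ.length = 66 * (K * τ.length) := by ring
      have e4 : 32 * K * (J - 2 * (G.deleteEdges {s(x, y)}).dist x u) =
        32 * (K * (J - 2 * (G.deleteEdges {s(x, y)}).dist x u)) := by ring
      have e5 : K * (2 * τ.length) = 2 * (K * τ.length) := by ring
      omega
  · have h1 : ¬ J ≤ 2 * (G.deleteEdges {s(x, y)}).dist x u := by omega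
    rw [plc_lo hu htu h1, plc_lo hv ht h2]
    have h3 := idx_le (m := m) (K := K)
      (s := J - 2 * (G.deleteEdges {s(x, y)}).dist x v)
      (r := J - 2 * (G.deleteEdges {s(x, y)}).dist x u) hJ1 hm (by omega)
    have h4 : (m - 1) * (J - 2 * (G.deleteEdges {s(x, y)}).dist x v) / J ≤
        (m - 1) * (J - 2 * (G.deleteEdges {s(x, y)}).dist x u) / J :=
      Nat.div_le_div_right (Nat.mul_le_mul_left _ (by omega))
    obtain ⟨p, hp⟩ := walk_part_le P h4
    refine ⟨p.reverse, ?_⟩
    rw [SimpleGraph.Walk.length_reverse]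
    have e1 : J - 2 * (G.deleteEdges {s(x, y)}).dist x u -
        (J - 2 * (G.deleteEdges {s(x, y)}).dist x v) = 2 * τ.length := by omega
    rw [e1] at h3
    have e2 : 32 * K * (2 * τ.length) = 64 * (K * τ.length) := by ring
    have e3 : 66 * K * τ.length = 66 * (K * τ.length) := by ring
    omega

end Pool.Agent.Helper95.UP
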