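import Pool.Agent.Helper95.UP.Defs

/-!
# UP-PL1: the neighbourhood of a shortest admissible cycle is a tree

`Opn G K n0 m x y P`: the cycle of length `m` through the edge `xy`, opened at this edge (`P` is the rest, a path of
`H = G - xy` from `x` to `y`), has `vol (ball x (m / K)) ≤ n0`, and no shorter cycle has this property at any of its
vertices.  Always `1 ≤ K`, `16 K J ≤ m`.

* `exists_opn`: shortest admissible cycle `C : G.Walk x x` (`Nat.find` on lengths; `C = cons h P'`,
  `SimpleGraph.Walk.cons_isCycle_iff`; `P = P'.reverse` transferred to `G - xy`, `Walk.toDeleteEdges`/`Walk.transfer`).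
* `opn_far`: an `H`-walk `p : x → y` with `p.length + 1 < m`: its `bypass` and the edge `yx` form a cycle of `G` through `x` of
  length `l ≤ p.length + 1 < m`, and `ball x (l / K) ⊆ ball x (m / K)`: contradiction to minimality.
* `opn_unique` (general form): two different `H`-paths `p, p' : z → v` with `p.length + p'.length ≤ 2 J` all of whose vertices are
  reachable from `x` in at most `2 J` steps: the graph `Γ` of the edges of `p` and `p'` is not acyclic
  (`SimpleGraph.isAcyclic_iff_path_unique`), a cycle of `Γ` has at most `2 J` edges (its edges are different and among those of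
  `p, p'`), it is a cycle of `G` through a vertex `z'` of `p` or `p'`, `ball z' (2 J / K) ⊆ ball x (4 J) ⊆ ball x (m / K)` as
  `16 J ≤ m / K`; contradiction to minimality, as `2 J < m`.
* distances are `H.dist x`, for vertices reachable from `x` in `H`.
* `opn_step`: `H.dist x z < J`, `w` a neighbour of `z`.  `dist w ≤ dist z + 1`, `dist z ≤ dist w + 1`; if `dist w = dist z`: a shortest
  path `x → z` followed by `zw` is a path of length `dist w + 1` (`w` is not on the shortest path to `z`, otherwise
  `dist w < dist z`), a shortest path to `w` is another one: contradiction to `opn_unique`.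
* `opn_parent`: shortest paths to `w` and `w'`, followed by `z`, are paths (walks of length `dist`) of length `≤ J`; equal by
  `opn_unique`, so `w = w'` (penultimate vertex).
* `opn_thread`: `τ` an `H`-path `u → v` whose inner vertices have `G`-degree two.  Put `z i = τ.getVert i`, `t i = dist x (z i)`.
  `t i ≤ t 0 + i`, so `opn_step` applies for `i < τ.length`: `t (i + 1) = t i ± 1`.  An inner vertex `z i` is not `x` (`x` is
  adjacent in `G` to `z (i-1)`, `z (i+1)`, `y`, three different vertices, as `xy` is not an edge of `H`), so it has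
  a neighbour at distance `t i - 1` (a shortest path), and as its degree is two this is `z (i-1)` or `z (i+1)`; both is excluded
  by `opn_parent`.  Hence `t` is strictly monotone along `τ`; decreasing would give `t v < t u`.
-/

open Set
open Pool.Agent.Helper83.OP

namespace Pool.Agent.Helper95.UP

variable {V : Type}

/-- a shortest admissible cycle, opened at the edge `xy` -/
structure Opn (G : SimpleGraph V) (K n0 m : ℕ) (x y : V)
    (P : (G.deleteEdges {s(x, y)}).Walk x y) : Prop where
  adj : G.Adj x y
  path : P.IsPath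
  len : P.length + 1 = m
  adm : vol G (ball G x (m / K)) ≤ n0
  min : ∀ (z : V) (C : G.Walk z z), C.IsCycle → C.length < m →
    n0 < vol G (ball G z (C.length / K))

theorem vol_mono [Finite V] (G : SimpleGraph V) {A B : Set V} (h : A ⊆ B) :
    vol G A ≤ vol G B := by
  unfold vol
  exact Set.ncard_le_ncard (fun e he => ⟨h he.1, he.2⟩) (Set.toFinite _)

theorem ball_mono (G : SimpleGraph V) (x : V) {ρ ρ' : ℕ} (h : ρ ≤ ρ') :
    ball G x ρ ⊆ ball G x ρ' := by
  rintro y ⟨p, hp⟩
  exact ⟨p, hp.trans h⟩

theorem ball_ball (G : SimpleGraph V) {x z : V} {ρ ρ' : ℕ} (h : z ∈ ball G x ρ) :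
    ball G z ρ' ⊆ ball G x (ρ + ρ') := by
  obtain ⟨p, hp⟩ := h
  rintro y ⟨q, hq⟩
  exact ⟨p.append q, by rw [SimpleGraph.Walk.length_append]; omega⟩

theorem exists_opn [Finite V] (G : SimpleGraph V) (K n0 : ℕ)
    (h : ∃ (x : V) (C : G.Walk x x), C.IsCycle ∧ vol G (ball G x (C.length / K)) ≤ n0) :
    ∃ (m : ℕ) (x y : V) (P : (G.deleteEdges {s(x, y)}).Walk x y), Opn G K n0 m x y P := by
  classical
  have h' : ∃ m, ∃ (x : V) (C : G.Walk x x), C.IsCycle ∧ C.length = m ∧
      vol G (ball G x (C.length / K)) ≤ n0 := by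
    obtain ⟨x, C, h1, h2⟩ := h
    exact ⟨_, x, C, h1, rfl, h2⟩
  obtain ⟨x, C, hC, hm, hv⟩ := Nat.find_spec h'
  have hmin : ∀ (z : V) (C : G.Walk z z), C.IsCycle → C.length < Nat.find h' →
      n0 < vol G (ball G z (C.length / K)) := by
    intro z D hD hl
    by_contra hcon
    exact Nat.find_min h' hl ⟨z, D, hD, rfl, not_lt.1 hcon⟩
  cases C with
  | nil => exact absurd rfl hC.ne_nil
  | @cons _ y _ hxy P' =>
    rw [SimpleGraph.Walk.cons_isCycle_iff] at hC
    have hP : ∀ f ∈ P'.reverse.edges, f ∈ (G.deleteEdges {s(x, y)}).edgeSet := by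
      intro f hf
      rw [SimpleGraph.Walk.edges_reverse, List.mem_reverse] at hf
      rw [SimpleGraph.edgeSet_deleteEdges]
      refine ⟨SimpleGraph.Walk.edges_subset_edgeSet P' hf, ?_⟩
      rintro rfl
      exact hC.2 hf
    refine ⟨Nat.find h', x, y, P'.reverse.transfer _ hP, hxy, ?_, ?_, ?_, hmin⟩
    · exact hC.1.reverse.transfer hP
    · rw [SimpleGraph.Walk.length_transfer, SimpleGraph.Walk.length_reverse, ← hm]
      rfl
    · rw [← hm]
      exact hv

variable [Finite V] {G : SimpleGraph V} {K n0 m : ℕ} {x y : V}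
  {P : (G.deleteEdges {s(x, y)}).Walk x y}


omit [Finite V] in
private theorem pl_map_edges (p : (G.deleteEdges {s(x, y)}).Walk y x) :
    s(x, y) ∉ (p.mapLe (SimpleGraph.deleteEdges_le _)).edges := by
  intro h
  rw [SimpleGraph.Walk.edges_mapLe_eq_edges] at h
  have h2 := SimpleGraph.Walk.edges_subset_edgeSet p h
  rw [SimpleGraph.edgeSet_deleteEdges] at h2
  exact h2.2 rfl

theorem opn_far (hO : Opn G K n0 m x y P) (p : (G.deleteEdges {s(x, y)}).Walk x y) :
    m ≤ p.length + 1 := by
  classical
  by_contra hcon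
  push Not at hcon
  have hp : p.bypass.length ≤ p.length := p.length_bypass_le_length
  have hC : (SimpleGraph.Walk.cons hO.adj
      (p.bypass.reverse.mapLe (SimpleGraph.deleteEdges_le _))).IsCycle := by
    rw [SimpleGraph.Walk.cons_isCycle_iff]
    exact ⟨(SimpleGraph.Walk.isPath_mapLe _).2 p.bypass_isPath.reverse, pl_map_edges _⟩
  have hlen : (SimpleGraph.Walk.cons hO.adj
      (p.bypass.reverse.mapLe (SimpleGraph.deleteEdges_le _))).length = p.bypass.length + 1 := by
    rw [SimpleGraph.Walk.length_cons, SimpleGraph.Walk.length_map,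
      SimpleGraph.Walk.length_reverse]
  have h1 := hO.min _ _ hC (by omega)
  have h2 : vol G (ball G x ((SimpleGraph.Walk.cons hO.adj
      (p.bypass.reverse.mapLe (SimpleGraph.deleteEdges_le _))).length / K)) ≤
      vol G (ball G x (m / K)) :=
    vol_mono G (ball_mono G x (Nat.div_le_div_right (by omega)))
  have h3 := hO.adm
  omega

omit [Finite V] in
/-- arithmetic: `16 J ≤ m / K` -/
theorem opn_arith {J : ℕ} (hK : 1 ≤ K) (hJ : 16 * K * J ≤ m) : 16 * J ≤ m / K := by
  rw [Nat.le_div_iff_mul_le (by omega)]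
  calc 16 * J * K = 16 * K * J := by ring
    _ ≤ m := hJ

/-- no short cycle near `x` -/
private theorem pl_no_cycle (hO : Opn G K n0 m x y P) {J : ℕ} (hK : 1 ≤ K)
    (hJ : 16 * K * J ≤ m) {w : V} (q : (G.deleteEdges {s(x, y)}).Walk x w) (hq : q.length ≤ J)
    (c : (G.deleteEdges {s(x, y)}).Walk w w) (hc : c.IsCycle) (hl : c.length ≤ 2 * J) :
    False := by
  have h3 := hc.three_le_length
  have hJ1 : 2 ≤ J := by omega
  have hCy : (c.mapLe (SimpleGraph.deleteEdges_le {s(x, y)})).IsCycle :=
    (SimpleGraph.Walk.isCycle_mapLe _).2 hc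
  have hlen : (c.mapLe (SimpleGraph.deleteEdges_le {s(x, y)})).length = c.length :=
    SimpleGraph.Walk.length_map _ _
  have ha := opn_arith hK hJ
  have hmJ : 2 * J < m := by
    have : m / K ≤ m := Nat.div_le_self _ _
    omega
  have h1 := hO.min _ _ hCy (by omega)
  have hw : w ∈ ball G x J := by
    refine ⟨q.mapLe (SimpleGraph.deleteEdges_le _), ?_⟩
    rw [SimpleGraph.Walk.length_map]
    exact hq
  have h2 : vol G (ball G w ((c.mapLe (SimpleGraph.deleteEdges_le {s(x, y)})).length / K)) ≤
      vol G (ball G x (m / K)) := by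
    refine vol_mono G ((ball_ball G hw).trans (ball_mono G x ?_))
    have : (c.mapLe (SimpleGraph.deleteEdges_le {s(x, y)})).length / K ≤ c.length := by
      rw [hlen]
      exact Nat.div_le_self _ _
    omega
  have h4 := hO.adm
  omega

theorem opn_unique (hO : Opn G K n0 m x y P) {J : ℕ} (hK : 1 ≤ K) (hJ : 16 * K * J ≤ m)
    {v : V} (p p' : (G.deleteEdges {s(x, y)}).Walk x v) (hp : p.IsPath) (hp' : p'.IsPath)
    (hl : p.length ≤ J) (hl' : p'.length ≤ J) : p = p' := by
  classical
  by_contra hne
  obtain ⟨w, hw, -, c, hc, hcl⟩ := hp.exists_isCycle_length_le_add_of_ne hp' hne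
  refine pl_no_cycle hO hK hJ (p.takeUntil w hw) ?_ c hc (by omega)
  exact (p.length_takeUntil_le_length hw).trans hl

omit [Finite V] in
/-- distances of neighbours -/
private theorem pl_dist_adj {H : SimpleGraph V} {x z w : V} (hz : H.Reachable x z)
    (h : H.Adj z w) : H.dist x w ≤ H.dist x z + 1 := by
  obtain ⟨p, hp⟩ := hz.exists_walk_length_eq_dist
  have := SimpleGraph.dist_le (p.concat h)
  rw [SimpleGraph.Walk.length_concat] at this
  omega

theorem opn_step (hO : Opn G K n0 m x y P) {J : ℕ} (hK : 1 ≤ K) (hJ : 16 * K * J ≤ m)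
    {z w : V} (hz : (G.deleteEdges {s(x, y)}).Reachable x z)
    (hzw : (G.deleteEdges {s(x, y)}).Adj z w)
    (ht : (G.deleteEdges {s(x, y)}).dist x z < J) :
    (G.deleteEdges {s(x, y)}).dist x w = (G.deleteEdges {s(x, y)}).dist x z + 1 ∨
      (G.deleteEdges {s(x, y)}).dist x w + 1 = (G.deleteEdges {s(x, y)}).dist x z := by
  classical
  have hw : (G.deleteEdges {s(x, y)}).Reachable x w := hz.trans hzw.reachable
  have h1 := pl_dist_adj hz hzw
  have h2 := pl_dist_adj hw hzw.symm
  by_contra hcon
  have heq : (G.deleteEdges {s(x, y)}).dist x w = (G.deleteEdges {s(x, y)}).dist x z := by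
    omega
  obtain ⟨p, hp, hpl⟩ := hz.exists_path_of_dist
  obtain ⟨q, hq, hql⟩ := hw.exists_path_of_dist
  have hwp : w ∉ p.support := by
    intro hmem
    have h3 := SimpleGraph.dist_le (p.takeUntil w hmem)
    have h4 : (p.takeUntil w hmem).length < p.length :=
      p.length_takeUntil_lt_length hmem hzw.ne'
    omega
  have h5 : (p.concat hzw).IsPath := hp.concat hwp hzw
  have h6 := opn_unique hO hK hJ (p.concat hzw) q h5 hq
    (by rw [SimpleGraph.Walk.length_concat]; omega) (by omega)
  have h7 := congrArg SimpleGraph.Walk.length h6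
  rw [SimpleGraph.Walk.length_concat] at h7
  omega

theorem opn_parent (hO : Opn G K n0 m x y P) {J : ℕ} (hK : 1 ≤ K) (hJ : 16 * K * J ≤ m)
    {z w w' : V} (hz : (G.deleteEdges {s(x, y)}).Reachable x z)
    (ht : (G.deleteEdges {s(x, y)}).dist x z ≤ J)
    (hw : (G.deleteEdges {s(x, y)}).Adj w z) (hw' : (G.deleteEdges {s(x, y)}).Adj w' z)
    (h1 : (G.deleteEdges {s(x, y)}).dist x w + 1 = (G.deleteEdges {s(x, y)}).dist x z)
    (h2 : (G.deleteEdges {s(x, y)}).dist x w' + 1 = (G.deleteEdges {s(x, y)}).dist x z) :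
    w = w' := by
  obtain ⟨p, hpl⟩ := (hz.trans hw.symm.reachable).exists_walk_length_eq_dist
  obtain ⟨q, hql⟩ := (hz.trans hw'.symm.reachable).exists_walk_length_eq_dist
  have hp : (p.concat hw).IsPath := SimpleGraph.Walk.isPath_of_length_eq_dist _ (by
    rw [SimpleGraph.Walk.length_concat, hpl, h1])
  have hq : (q.concat hw').IsPath := SimpleGraph.Walk.isPath_of_length_eq_dist _ (by
    rw [SimpleGraph.Walk.length_concat, hql, h2])
  have h6 := opn_unique hO hK hJ (p.concat hw) (q.concat hw') hp hq
    (by rw [SimpleGraph.Walk.length_concat]; omega)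
    (by rw [SimpleGraph.Walk.length_concat]; omega)
  have h7 := congrArg SimpleGraph.Walk.penultimate h6
  rw [SimpleGraph.Walk.penultimate_concat, SimpleGraph.Walk.penultimate_concat] at h7
  exact h7

omit [Finite V] in
private theorem pl_two {G : SimpleGraph V} {z a b c : V} (hz : deg G z = 2) (ha : G.Adj z a)
    (hb : G.Adj z b) (hc : G.Adj z c) (hab : a ≠ b) : c = a ∨ c = b := by
  rw [deg, Set.ncard_eq_two] at hz
  obtain ⟨p, q, hpq, hN⟩ := hz
  have h1 : a ∈ G.neighborSet z := ha
  have h2 : b ∈ G.neighborSet z := hb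
  have h3 : c ∈ G.neighborSet z := hc
  rw [hN] at h1 h2 h3
  simp only [Set.mem_insert_iff, Set.mem_singleton_iff] at h1 h2 h3
  rcases h1 with rfl | rfl <;> rcases h2 with rfl | rfl <;> rcases h3 with rfl | rfl <;> tauto

theorem opn_thread (hO : Opn G K n0 m x y P) {J : ℕ} (hK : 1 ≤ K) (hJ : 16 * K * J ≤ m)
    {u v : V} (τ : (G.deleteEdges {s(x, y)}).Walk u v) (hτ : τ.IsPath) (h1 : 1 ≤ τ.length)
    (hin : ∀ z ∈ τ.support, z ≠ u → z ≠ v → deg G z = 2)
    (hu : (G.deleteEdges {s(x, y)}).Reachable x u)
    (huv : (G.deleteEdges {s(x, y)}).dist x u ≤ (G.deleteEdges {s(x, y)}).dist x v)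
    (ht : (G.deleteEdges {s(x, y)}).dist x u + τ.length ≤ J) :
    (G.deleteEdges {s(x, y)}).dist x v = (G.deleteEdges {s(x, y)}).dist x u + τ.length := by
  classical
  obtain ⟨t, htd⟩ : ∃ t : ℕ → ℕ, ∀ i, t i = (G.deleteEdges {s(x, y)}).dist x (τ.getVert i) :=
    ⟨_, fun _ => rfl⟩
  have ht0 : t 0 = (G.deleteEdges {s(x, y)}).dist x u := by
    rw [htd, SimpleGraph.Walk.getVert_zero]
  have htn : t τ.length = (G.deleteEdges {s(x, y)}).dist x v := by
    rw [htd, SimpleGraph.Walk.getVert_length]
  have hadj : ∀ i, i < τ.length →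
      (G.deleteEdges {s(x, y)}).Adj (τ.getVert i) (τ.getVert (i + 1)) := fun i hi =>
    τ.adj_getVert_succ hi
  have hreach : ∀ i, (G.deleteEdges {s(x, y)}).Reachable x (τ.getVert i) := fun i =>
    hu.trans (τ.takeUntil _ (τ.getVert_mem_support i)).reachable
  have hup : ∀ i, i ≤ τ.length → t i ≤ t 0 + i := by
    intro i
    induction i with
    | zero => intro _; omega
    | succ i ih =>
      intro hi
      have h2 := pl_dist_adj (hreach i) (hadj i (by omega))
      rw [← htd, ← htd] at h2
      have h3 := ih (by omega)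
      omega
  have hstep : ∀ i, i < τ.length → t (i + 1) = t i + 1 ∨ t (i + 1) + 1 = t i := by
    intro i hi
    have h2 := opn_step hO hK hJ (hreach i) (hadj i hi) (by
      rw [← htd]
      have := hup i hi.le
      omega)
    rw [← htd, ← htd] at h2
    exact h2
  have hinj := hτ.getVert_injOn
  have hne : ∀ i j, i ≤ τ.length → j ≤ τ.length → i ≠ j → τ.getVert i ≠ τ.getVert j := by
    intro i j hi hj hij h
    exact hij (hinj hi hj h)
  have hdeg : ∀ i, 0 < i → i < τ.length → deg G (τ.getVert i) = 2 := by
    intro i h2 h3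
    refine hin _ (τ.getVert_mem_support i) ?_ ?_
    · have := hne i 0 h3.le (by omega) (by omega)
      rwa [SimpleGraph.Walk.getVert_zero] at this
    · have := hne i τ.length h3.le le_rfl (by omega)
      rwa [SimpleGraph.Walk.getVert_length] at this
  have hle : ∀ a b, (G.deleteEdges {s(x, y)}).Adj a b → G.Adj a b := fun a b h =>
    (SimpleGraph.deleteEdges_le {s(x, y)}) h
  -- no local maximum
  have hmax : ∀ i, i + 1 < τ.length → t i + 1 = t (i + 1) → t (i + 2) + 1 = t (i + 1) →
      False := by
    intro i hi h2 h3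
    have h4 := opn_parent hO hK hJ (hreach (i + 1)) (by
      rw [← htd]
      have := hup (i + 1) hi.le
      omega) (hadj i (by omega)) (hadj (i + 1) hi).symm (by rw [← htd, ← htd, h2])
      (by rw [← htd, ← htd]; exact h3)
    exact hne i (i + 2) (by omega) (by omega) (by omega) h4
  -- no local minimum
  have hmin : ∀ i, i + 1 < τ.length → t i = t (i + 1) + 1 → t (i + 2) = t (i + 1) + 1 →
      False := by
    intro i hi h2 h3
    have hd := hdeg (i + 1) (by omega) hi
    have hx : τ.getVert (i + 1) ≠ x := by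
      intro hx
      have a1 := (hadj i (by omega)).symm
      have a2 := hadj (i + 1) hi
      rw [hx] at a1 a2 hd
      rcases pl_two hd (hle _ _ a1) (hle _ _ a2) hO.adj
        (hne i (i + 2) (by omega) (by omega) (by omega)) with h | h
      · rw [← h, SimpleGraph.deleteEdges_adj] at a1
        exact a1.2 rfl
      · have h' : τ.getVert (i + 1 + 1) = y := h.symm
        rw [h', SimpleGraph.deleteEdges_adj] at a2
        exact a2.2 rfl
    obtain ⟨p, hp, hpl⟩ := (hreach (i + 1)).exists_path_of_dist
    have hpn : ¬ p.Nil := by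
      intro h
      exact hx h.eq.symm
    have hw := p.adj_penultimate hpn
    have hwd : (G.deleteEdges {s(x, y)}).dist x p.penultimate ≤ p.dropLast.length :=
      SimpleGraph.dist_le p.dropLast
    have hdl := SimpleGraph.Walk.length_dropLast_add_one hpn
    have hwd2 := pl_dist_adj ((hreach (i + 1)).trans hw.symm.reachable) hw
    rcases pl_two hd (hle _ _ (hadj i (by omega)).symm) (hle _ _ (hadj (i + 1) hi))
        (hle _ _ hw.symm) (hne i (i + 2) (by omega) (by omega) (by omega)) with h | h
    · have e1 : (G.deleteEdges {s(x, y)}).dist x p.penultimate = t i := by rw [htd, h]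
      rw [← htd] at hpl
      omega
    · have e1 : (G.deleteEdges {s(x, y)}).dist x p.penultimate = t (i + 2) := by
        rw [htd, h]
      rw [← htd] at hpl
      omega
  rcases hstep 0 (by omega) with h2 | h2
  · have key : ∀ i, i + 1 ≤ τ.length → t (i + 1) = t 0 + (i + 1) ∧ t i + 1 = t (i + 1) := by
      intro i
      induction i with
      | zero => intro _; constructor <;> omega
      | succ i ih =>
        intro hi
        obtain ⟨h3, h4⟩ := ih (by omega)
        rcases hstep (i + 1) (by omega) with h5 | h5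
        · constructor <;> omega
        · exact (hmax i (by omega) h4 h5).elim
    obtain ⟨h3, -⟩ := key (τ.length - 1) (by omega)
    have h4 : τ.length - 1 + 1 = τ.length := by omega
    rw [h4] at h3
    rw [← htn, ← ht0]
    exact h3
  · exfalso
    have key : ∀ i, i + 1 ≤ τ.length → t (i + 1) + (i + 1) = t 0 ∧ t i = t (i + 1) + 1 := by
      intro i
      induction i with
      | zero => intro _; constructor <;> omega
      | succ i ih =>
        intro hi
        obtain ⟨h3, h4⟩ := ih (by omega)
        rcases hstep (i + 1) (by omega) with h5 | h5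
        · exact (hmin i (by omega) h4 h5).elim
        · constructor <;> omega
    obtain ⟨h3, -⟩ := key (τ.length - 1) (by omega)
    have h4 : τ.length - 1 + 1 = τ.length := by omega
    rw [h4] at h3
    rw [← ht0, ← htn] at huv
    omega

end Pool.Agent.Helper95.UP
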